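import Pool.Agent.Helper3.T4.Decode
import Pool.Agent.Helper27.T4.Crt

/-!
# One coded layer, one growing family: abstract form

`ι` finite set of families with distinct odd primes `p f`; `b ≤ a` levels; `G` the growing family,
`K` the families which are known. `ρ f x`, `ρ' f x'` are the hash values of the family `f`; they
depend only on the coordinates in `pre f`, `pre' f`.
-/

namespace Pool.Agent.Helper11.T4

open Finset Pool.Agent.Helper27.T4 Pool.Agent.Helper3.T4

section

variable {ι : Type*} [Fintype ι] [DecidableEq ι] {p : ι → ℕ}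

/-- growth of one family in the modulus -/
theorem NN_update_mul (a b : ι → ℕ) (hba : b ≤ a) (G : ι) :
    NN p (Function.update a G (b G)) = NN p b * ∏ f ∈ univ.erase G, p f ^ (a f - b f) := by
  have e1 : NN p (Function.update a G (b G)) = p G ^ b G * ∏ f ∈ univ.erase G, p f ^ a f := by
    rw [NN, ← Finset.mul_prod_erase univ (fun i => p i ^ (Function.update a G (b G)) i)
      (Finset.mem_univ G), Function.update_self]
    congr 1
    refine Finset.prod_congr rfl (fun f hf => ?_)
    rw [Function.update_of_ne (Finset.ne_of_mem_erase hf)]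
  have e2 : NN p b = p G ^ b G * ∏ f ∈ univ.erase G, p f ^ b f := by
    rw [NN, ← Finset.mul_prod_erase univ (fun i => p i ^ b i) (Finset.mem_univ G)]
  rw [e1, e2, mul_assoc, ← Finset.prod_mul_distrib]
  congr 1
  refine Finset.prod_congr rfl (fun f _ => ?_)
  rw [← pow_add, Nat.add_sub_cancel' (hba f)]

theorem dvd_quot (hp : ∀ i, (p i).Prime) (a b : ι → ℕ) (hba : b ≤ a) (G : ι)
    (hlt : b G < a G) : p G ∣ NN p a / NN p b := by
  have h1 : NN p a = NN p b * ∏ f, p f ^ (a f - b f) := by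
    rw [NN, NN, ← Finset.prod_mul_distrib]
    refine Finset.prod_congr rfl (fun f _ => ?_)
    rw [← pow_add, Nat.add_sub_cancel' (hba f)]
  rw [h1, Nat.mul_div_cancel_left _ (NN_pos hp b)]
  exact (dvd_pow_self _ (by omega)).trans (Finset.dvd_prod_of_mem (fun f => p f ^ (a f - b f))
    (Finset.mem_univ G))

/-- the sum of the two codes (times a unit `μ`), when the known part `z` and the residue `r` of the
growing product are given -/
theorem abs_growth (hp : ∀ i, (p i).Prime) (hp2 : ∀ i, p i ≠ 2) (hinj : Function.Injective p)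
    (a b : ι → ℕ) (hba : b ≤ a) (G : ι) (K : Finset ι) (hG : G ∉ K)
    (ρ ρ' : ι → (ι → ℕ) → ℕ)
    (hρ : ∀ f, (f = G ∨ f ∈ K) → ∀ x y : ι → ℕ, (∀ g ∈ K, x g = y g) →
      ρ f x = ρ f y ∧ ρ' f x = ρ' f y)
    (hrest : ∀ f, f ≠ G → f ∉ K → a f = b f) (hgrow : a G ≤ 2 * b G + 1) (hlt : b G < a G)
    (μ : ℕ) (hμ : μ.Coprime (p G)) (N0 : ℕ) (z : ι → ℕ × ℕ) (r : ℕ) (hr : r.Coprime (p G)) :
    ∃ α E : ℕ, α < NN p a / NN p b ∧ E < NN p a / NN p b ∧ E.Coprime (p G) ∧
      ∀ (x x' : ι → ℕ) (N : ℕ), (∀ f ∈ K, x f = (z f).1 ∧ x' f = (z f).2) →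
        (x G).Coprime (p G) → (x' G).Coprime (p G) →
        (x G * x' G) % p G ^ (b G + 1) = r →
        (∀ f, (N : ZMod (p f ^ a f)) = (μ : ZMod (p f ^ a f)) *
          ((Lg (p f) (a f) (x f) + ((ρ f x : ℕ) : ZMod (p f ^ a f))) +
            (Lg (p f) (a f) (x' f) + ((ρ' f x' : ℕ) : ZMod (p f ^ a f))))) →
        N % NN p b = N0 % NN p b →
        N % NN p a = N0 % NN p b + NN p b *
          ((α + E * ((x G * x' G) / p G ^ (b G + 1))) % (NN p a / NN p b)) := by
  classical
  set z1 : ι → ℕ := fun f => (z f).1 with hz1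
  set z2 : ι → ℕ := fun f => (z f).2 with hz2
  set T0 : ∀ f, ZMod (p f ^ a f) := fun f =>
    if f ∈ K then (μ : ZMod (p f ^ a f)) *
      ((Lg (p f) (a f) (z1 f) + ((ρ f z1 : ℕ) : ZMod (p f ^ a f))) +
      (Lg (p f) (a f) (z2 f) + ((ρ' f z2 : ℕ) : ZMod (p f ^ a f))))
    else if f = G then (μ : ZMod (p f ^ a f)) *
      (Lg (p f) (a f) r + (((ρ f z1 : ℕ) : ZMod (p f ^ a f)) +
      ((ρ' f z2 : ℕ) : ZMod (p f ^ a f))))
    else (N0 : ZMod (p f ^ a f)) with hT0
  obtain ⟨β, hβ, hgr⟩ := grow (hp G) (hp2 G) (a G) (b G) r hr hgrow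
  set b2 : ι → ℕ := Function.update a G (b G) with hb2
  obtain ⟨E1, hE1, hE2⟩ := exists_single hp hinj (a := a) (b := b2) G
    (fun i hi => by rw [hb2, Function.update_of_ne hi]) (μ * β)
  have hb2G : b2 G = b G := by rw [hb2, Function.update_self]
  rw [hb2G] at hE2
  have hE3 : ∀ (r : ∀ i, ZMod (p i ^ a i)) (n : ℕ),
      cc hp hinj a (Function.update r G (r G + ((p G ^ b G * (μ * β * n) : ℕ) :
        ZMod (p G ^ a G)))) =
        cc hp hinj a r + ((NN p b2 * (E1 * n) : ℕ) : ZMod (NN p a)) := by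
    intro r n
    convert hE2 r n using 3
  set P : ℕ := ∏ f ∈ univ.erase G, p f ^ (a f - b f) with hP
  have hPc : P.Coprime (p G) := by
    apply Nat.Coprime.prod_left
    intro f hf
    apply Nat.Coprime.pow_left
    rw [Nat.coprime_primes (hp f) (hp G)]
    intro h
    exact (Finset.ne_of_mem_erase hf) (hinj h)
  have hNb2 : NN p b2 = NN p b * P := NN_update_mul a b hba G
  have hNpos : 0 < NN p b := NN_pos hp b
  set Q : ℕ := NN p a / NN p b with hQ
  have hQmul : NN p b * Q = NN p a := Nat.mul_div_cancel' (NN_dvd p hba)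
  have hQpos : 0 < Q := by
    rcases Nat.eq_zero_or_pos Q with h | h
    · rw [h, mul_zero] at hQmul
      exact absurd hQmul.symm (NN_pos hp a).ne'
    · exact h
  have hpQ : p G ∣ Q := dvd_quot hp a b hba G hlt
  set C0 : ℕ := cv hp hinj a T0 with hC0
  have hC0lt : C0 < NN p b * Q := by rw [hQmul]; exact cv_lt hp hinj a T0
  refine ⟨C0 / NN p b, (P * E1) % Q, Nat.div_lt_of_lt_mul hC0lt, Nat.mod_lt _ hQpos, ?_, ?_⟩
  · have h1 : (P * E1).Coprime (p G) :=
      Nat.Coprime.mul_left hPc (hE1 (Nat.Coprime.mul_left hμ hβ))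
    have h2 : (P * E1) % Q % p G = (P * E1) % p G := Nat.mod_mod_of_dvd _ hpQ
    unfold Nat.Coprime at h1 ⊢
    rw [Nat.gcd_comm, Nat.gcd_rec] at h1 ⊢
    rw [h2]
    exact h1
  · intro x x' N hxz hcx hcx' hres hN hmod
    set i : ℕ := (x G * x' G) / p G ^ (b G + 1) with hi
    have hprod : x G * x' G = r + i * p G ^ (b G + 1) := by
      rw [hi, ← hres, mul_comm (_ / _)]
      exact (Nat.mod_add_div _ _).symm
    have hv1 : ∀ f, (f = G ∨ f ∈ K) → ρ f x = ρ f z1 := by
      intro f hf
      exact (hρ f hf x z1 (fun g hg => (hxz g hg).1)).1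
    have hv2 : ∀ f, (f = G ∨ f ∈ K) → ρ' f x' = ρ' f z2 := by
      intro f hf
      exact (hρ f hf x' z2 (fun g hg => (hxz g hg).2)).2
    have hcomp : ((N : ℕ) : ZMod (NN p a)) =
        cc hp hinj a (Function.update T0 G
          (T0 G + ((p G ^ b G * (μ * β * i) : ℕ) : ZMod (p G ^ a G)))) := by
      rw [natCast_eq_cc_iff]
      intro f
      by_cases hfG : f = G
      · subst hfG
        rw [Function.update_self, hN f, hT0]
        simp only [if_neg hG, if_true]
        rw [hv1 f (Or.inl rfl), hv2 f (Or.inl rfl)]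
        have h3 : Lg (p f) (a f) (x f) + Lg (p f) (a f) (x' f) = Lg (p f) (a f) r +
            ((p f ^ b f * (β * i) : ℕ) : ZMod (p f ^ a f)) := by
          rw [← hgr i, ← hprod, Lg_mul (hp f) (hp2 f) _ _ _ hcx hcx']
        have h4 : ((p f ^ b f * (μ * β * i) : ℕ) : ZMod (p f ^ a f)) =
            (μ : ZMod (p f ^ a f)) * ((p f ^ b f * (β * i) : ℕ) : ZMod (p f ^ a f)) := by
          push_cast
          ring
        rw [h4]
        calc _ = (μ : ZMod (p f ^ a f)) * ((Lg (p f) (a f) (x f) + Lg (p f) (a f) (x' f)) +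
            (((ρ f z1 : ℕ) : ZMod (p f ^ a f)) + ((ρ' f z2 : ℕ) : ZMod (p f ^ a f)))) := by
              ring
          _ = _ := by rw [h3]; ring
      · rw [Function.update_of_ne hfG]
        by_cases hfK : f ∈ K
        · rw [hN f, hT0]
          simp only [if_pos hfK]
          rw [hv1 f (Or.inr hfK), hv2 f (Or.inr hfK)]
          have h3 := hxz f hfK
          rw [h3.1, h3.2]
        · rw [hT0]
          simp only [if_neg hfK, if_neg hfG]
          have h4 : a f = b f := hrest f hfG hfK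
          have h5 : p f ^ a f ∣ NN p b := by
            rw [h4]
            exact pow_dvd_NN p b f
          have h6 : N ≡ N0 [MOD NN p b] := hmod
          exact (ZMod.natCast_eq_natCast_iff _ _ _).mpr (h6.of_dvd h5)
    rw [hE3, ← cv_cast hp hinj a T0, ← hC0, ← Nat.cast_add,
      ZMod.natCast_eq_natCast_iff, hNb2, ← hQmul] at hcomp
    have h7 : N % (NN p b * Q) = (C0 + NN p b * (P * E1 * i)) % (NN p b * Q) := by
      have e : NN p b * P * (E1 * i) = NN p b * (P * E1 * i) := by ring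
      rw [e] at hcomp
      exact hcomp
    have h8 : C0 % NN p b = N0 % NN p b := by
      rw [← hmod]
      have h9 := congrArg (fun t => t % NN p b) h7
      simp only [Nat.mod_mul_right_mod] at h9
      rw [h9, Nat.add_mul_mod_self_left]
    rw [← hQmul, h7, Nat.mod_mul, Nat.add_mul_mod_self_left, h8,
      Nat.add_mul_div_left _ _ hNpos]
    congr 2
    rw [Nat.add_mod, Nat.add_mod (C0 / NN p b) (P * E1 % Q * i), Nat.mod_mul_mod]

end

end Pool.Agent.Helper11.T4
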