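import Mathlib

/-!
# Near pairs of coded windows: the closure property

`u = π1 * r y + Q * v` on the first side, `u' = π * r' y' + Q * v'` on the second side, with
`π = q * π1` (the alignment modulus is the same on both sides) and the same `Q`.
An equation `P * ((α + E i) % Δ + κ * Δ) + q * u + u' = n` becomes
`(α' + E' i) % π + κ' * π + q * v + v' = n / Q`.
-/

namespace Pool.Agent.Helper11.T4

open Finset

variable {Y Y' : Type*} [DecidableEq Y] [DecidableEq Y']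

/-- the new linear form -/
theorem closure_form {p : ℕ} (hp : p.Prime) (s Q P Δ α E n : ℕ) (hs : s ≠ 0) (hQ : Q.Coprime p)
    (hP : P.Coprime p) (hΔ : p ^ s ∣ Δ) (hE : E.Coprime p) :
    ∃ α' E' : ℕ, E'.Coprime p ∧ ∀ i κ ρ m : ℕ,
      P * ((α + E * i) % Δ + κ * Δ) + p ^ s * ρ + Q * m = n →
      (P * (κ + 1) * Δ + p ^ s * ρ ≤ 3 * p ^ s * Q) → 0 < Δ →
      ∃ κ' ≤ 2, (α' + E' * i) % p ^ s + κ' * p ^ s + m = n / Q := by
  have hQp : Q.Coprime (p ^ s) := Nat.Coprime.pow_right _ hQ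
  have hne : NeZero (p ^ s) := ⟨(pow_pos hp.pos _).ne'⟩
  have hQu : IsUnit (Q : ZMod (p ^ s)) := by rwa [ZMod.isUnit_iff_coprime]
  have hPu : IsUnit (P : ZMod (p ^ s)) := by
    rw [ZMod.isUnit_iff_coprime]; exact Nat.Coprime.pow_right _ hP
  have hEu : IsUnit (E : ZMod (p ^ s)) := by
    rw [ZMod.isUnit_iff_coprime]; exact Nat.Coprime.pow_right _ hE
  obtain ⟨Q1, hQ1⟩ := hQu.exists_left_inv
  have hQ1u : IsUnit Q1 := IsUnit.of_mul_eq_one_right _ (by rwa [mul_comm] at hQ1)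
  refine ⟨(Q1 * ((P : ZMod (p ^ s)) * (α : ZMod (p ^ s)) - ((n % Q : ℕ) : ZMod (p ^ s)))).val,
    (Q1 * ((P : ZMod (p ^ s)) * (E : ZMod (p ^ s)))).val, ?_, ?_⟩
  · have h1 : IsUnit (Q1 * ((P : ZMod (p ^ s)) * (E : ZMod (p ^ s)))) := hQ1u.mul (hPu.mul hEu)
    rw [← ZMod.natCast_zmod_val (Q1 * ((P : ZMod (p ^ s)) * (E : ZMod (p ^ s)))),
      ZMod.isUnit_iff_coprime] at h1
    exact Nat.Coprime.coprime_dvd_right (dvd_pow_self p hs) h1
  · intro i κ ρ m h hsize hΔ0
    set α' := (Q1 * ((P : ZMod (p ^ s)) * (α : ZMod (p ^ s)) -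
      ((n % Q : ℕ) : ZMod (p ^ s)))).val with hα'
    set E' := (Q1 * ((P : ZMod (p ^ s)) * (E : ZMod (p ^ s)))).val with hE'
    have hpos : 0 < p ^ s := pow_pos hp.pos _
    have hQpos : 0 < Q := by
      rcases Nat.eq_zero_or_pos Q with h0 | h0
      · subst h0
        rw [Nat.coprime_zero_left] at hQ
        exact absurd hQ hp.one_lt.ne'
      · exact h0
    set T := n / Q with hT
    have hn : n = n % Q + Q * T := by rw [hT]; exact (Nat.mod_add_div _ _).symm
    have hmT : m ≤ T := by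
      rw [hT, Nat.le_div_iff_mul_le hQpos, mul_comm]
      omega
    obtain ⟨k, hk⟩ := Nat.exists_eq_add_of_le hmT
    -- the size of `k = T - m`
    have hmod : (α + E * i) % Δ < Δ := Nat.mod_lt _ hΔ0
    have hPpos : 0 < P := by
      rcases Nat.eq_zero_or_pos P with h0 | h0
      · subst h0
        rw [Nat.coprime_zero_left] at hP
        exact absurd hP hp.one_lt.ne'
      · exact h0
    have h1 : P * ((α + E * i) % Δ + κ * Δ) < P * (κ + 1) * Δ := by
      rw [mul_assoc]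
      apply Nat.mul_lt_mul_of_pos_left _ hPpos
      rw [add_mul, one_mul]
      omega
    have h2 : Q * k < Q * (3 * p ^ s) := by
      have e1 : Q * T = Q * m + Q * k := by rw [hk]; ring
      have e2 : Q * (3 * p ^ s) = 3 * p ^ s * Q := by ring
      rw [e2]
      omega
    have h3 : k < 3 * p ^ s := lt_of_mul_lt_mul_left h2 (Nat.zero_le _)
    -- the class of `k`
    have h4 : ((k : ℕ) : ZMod (p ^ s)) = ((α' + E' * i : ℕ) : ZMod (p ^ s)) := by
      have e0 : P * ((α + E * i) % Δ + κ * Δ) + p ^ s * ρ + Q * m = n % Q + Q * (m + k) := by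
        rw [h, ← hk]
        exact hn
      have e1 := congrArg (Nat.cast : ℕ → ZMod (p ^ s)) e0
      have e2 : (((α + E * i) % Δ : ℕ) : ZMod (p ^ s)) = ((α + E * i : ℕ) : ZMod (p ^ s)) := by
        rw [ZMod.natCast_eq_natCast_iff]
        have : (α + E * i) % Δ ≡ α + E * i [MOD Δ] := Nat.mod_modEq _ _
        exact this.of_dvd hΔ
      have e3 : (Δ : ZMod (p ^ s)) = 0 := (ZMod.natCast_eq_zero_iff _ _).mpr hΔ
      have e4 : (p : ZMod (p ^ s)) ^ s = 0 := by
        have := ZMod.natCast_self (p ^ s)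
        rwa [Nat.cast_pow] at this
      simp only [Nat.cast_add, Nat.cast_mul, Nat.cast_pow] at e1 e2
      rw [e2, e3, e4] at e1
      rw [Nat.cast_add, Nat.cast_mul, hα', hE', ZMod.natCast_zmod_val, ZMod.natCast_zmod_val]
      have e5 : (Q : ZMod (p ^ s)) * k = P * ((α : ZMod (p ^ s)) + E * i) -
          ((n % Q : ℕ) : ZMod (p ^ s)) := by
        linear_combination (-1 : ZMod (p ^ s)) * e1
      calc ((k : ℕ) : ZMod (p ^ s)) = (Q1 * Q) * k := by rw [hQ1, one_mul]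
        _ = Q1 * (Q * k) := by ring
        _ = _ := by
          rw [e5]
          ring
    have h5 : k % p ^ s = (α' + E' * i) % p ^ s := (ZMod.natCast_eq_natCast_iff _ _ _).mp h4
    refine ⟨k / p ^ s, ?_, ?_⟩
    · have := (Nat.div_lt_iff_lt_mul hpos).mpr h3
      omega
    · rw [← h5, hk]
      have := Nat.mod_add_div k (p ^ s)
      rw [mul_comm (k / p ^ s)]
      omega

/-- the closure property: if the decoding has at most `C0` solutions and the inner windows satisfy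
the inner condition with the bound `R`, then the outer condition holds with the bound
`3 * (C0 * R)` -/
theorem closure_card {p : ℕ} (hp : p.Prime) (s Q P Δ q π1 α E κ n I : ℕ) (hs : s ≠ 0)
    (hQ : Q.Coprime p) (hP : P.Coprime p) (hΔ : p ^ s ∣ Δ) (hΔ0 : 0 < Δ) (hE : E.Coprime p)
    (hq : q * π1 = p ^ s) (hsize : P * (κ + 1) * Δ ≤ p ^ s * Q)
    (Z : Finset (Y × ℕ)) (Z' : Finset (Y' × ℕ)) (V V' : Finset ℕ)
    (hZ : ∀ z ∈ Z, z.2 ∈ V) (hZ' : ∀ z ∈ Z', z.2 ∈ V') (r : Y → ℕ) (r' : Y' → ℕ)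
    (hr : ∀ z ∈ Z, r z.1 < Q) (hr' : ∀ z ∈ Z', r' z.1 < Q) (C0 R : ℕ)
    (hC0 : ∀ ρ v v' : ℕ, ((Z ×ˢ Z').filter (fun z => z.1.2 = v ∧ z.2.2 = v' ∧
      r z.1.1 + r' z.2.1 = ρ)).card ≤ C0)
    (hR : ∀ α' E' κ' n' : ℕ, E'.Coprime p → κ' ≤ 2 →
      ((range I ×ˢ (V ×ˢ V')).filter (fun t => (α' + E' * t.1) % p ^ s + κ' * p ^ s +
        q * t.2.1 + t.2.2 = n')).card ≤ R) :
    ((range I ×ˢ (Z ×ˢ Z')).filter (fun t => P * ((α + E * t.1) % Δ + κ * Δ) +
      q * (π1 * r t.2.1.1 + Q * t.2.1.2) + (p ^ s * r' t.2.2.1 + Q * t.2.2.2) = n)).card ≤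
      3 * (C0 * R) := by
  classical
  obtain ⟨α', E', hE', hform⟩ := closure_form hp s Q P Δ α E n hs hQ hP hΔ hE
  set H := (range I ×ˢ (Z ×ˢ Z')).filter (fun t => P * ((α + E * t.1) % Δ + κ * Δ) +
      q * (π1 * r t.2.1.1 + Q * t.2.1.2) + (p ^ s * r' t.2.2.1 + Q * t.2.2.2) = n) with hH
  set T : Finset (ℕ × ℕ × ℕ × ℕ) := (range 3).biUnion (fun κ' =>
    (((range I ×ˢ (V ×ˢ V')).filter (fun t => (α' + E' * t.1) % p ^ s + κ' * p ^ s +
        q * t.2.1 + t.2.2 = n / Q)).image (fun t => (κ', t)))) with hT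
  have hTc : T.card ≤ 3 * R := by
    calc T.card ≤ ∑ κ' ∈ range 3, (((range I ×ˢ (V ×ˢ V')).filter (fun t =>
          (α' + E' * t.1) % p ^ s + κ' * p ^ s + q * t.2.1 + t.2.2 = n / Q)).image
            (fun t => (κ', t))).card := Finset.card_biUnion_le
      _ ≤ ∑ _κ' ∈ range 3, R := by
          refine Finset.sum_le_sum (fun κ' hκ' => ?_)
          rw [Finset.mem_range] at hκ'
          exact Finset.card_image_le.trans (hR α' E' κ' (n / Q) hE' (by omega))
      _ = 3 * R := by rw [Finset.sum_const, Finset.card_range, smul_eq_mul]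
  have hkey : ∀ t ∈ H, P * ((α + E * t.1) % Δ + κ * Δ) +
      p ^ s * (r t.2.1.1 + r' t.2.2.1) + Q * (q * t.2.1.2 + t.2.2.2) = n := by
    intro t ht
    rw [hH, Finset.mem_filter] at ht
    rw [← ht.2, ← hq]
    ring
  refine (Finset.card_le_mul_card_image_of_maps_to (f := fun t : ℕ × ((Y × ℕ) × (Y' × ℕ)) =>
    ((n / Q - ((q * t.2.1.2 + t.2.2.2) + (α' + E' * t.1) % p ^ s)) / p ^ s,
      (t.1, t.2.1.2, t.2.2.2))) (t := T) ?_ C0 ?_).trans ?_
  · intro t ht
    have hk := hkey t ht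
    have ht2 := ht
    rw [hH, Finset.mem_filter, Finset.mem_product, Finset.mem_product] at ht2
    obtain ⟨⟨hi, hz, hz'⟩, _⟩ := ht2
    obtain ⟨κ', hκ', he⟩ := hform t.1 κ _ _ hk (by
      have h1 := hr _ hz
      have h2 := hr' _ hz'
      have h3 : p ^ s * (r t.2.1.1 + r' t.2.2.1) ≤ p ^ s * (2 * Q) :=
        Nat.mul_le_mul_left _ (by omega)
      have h4 : 3 * p ^ s * Q = p ^ s * Q + p ^ s * (2 * Q) := by ring
      rw [h4]
      exact Nat.add_le_add hsize h3) hΔ0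
    have hpos : 0 < p ^ s := pow_pos hp.pos _
    have e1 : (n / Q - ((q * t.2.1.2 + t.2.2.2) + (α' + E' * t.1) % p ^ s)) / p ^ s = κ' := by
      rw [← he]
      have : (α' + E' * t.1) % p ^ s + κ' * p ^ s + (q * t.2.1.2 + t.2.2.2) -
          (q * t.2.1.2 + t.2.2.2 + (α' + E' * t.1) % p ^ s) = κ' * p ^ s := by omega
      rw [this, Nat.mul_div_cancel _ hpos]
    show (_, _) ∈ T
    rw [e1, hT, Finset.mem_biUnion]
    refine ⟨κ', by rw [Finset.mem_range]; omega, ?_⟩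
    rw [Finset.mem_image]
    refine ⟨(t.1, t.2.1.2, t.2.2.2), ?_, rfl⟩
    rw [Finset.mem_filter, Finset.mem_product, Finset.mem_product]
    refine ⟨⟨hi, hZ _ hz, hZ' _ hz'⟩, ?_⟩
    simp only
    omega
  · intro b _
    have h1 := hC0 ((n - P * ((α + E * b.2.1) % Δ + κ * Δ) - Q * (q * b.2.2.1 + b.2.2.2)) / p ^ s)
      b.2.2.1 b.2.2.2
    refine le_trans (Finset.card_le_card_of_injOn (fun t => t.2) ?_ ?_) h1
    · intro t ht
      rw [Finset.mem_coe, Finset.mem_filter] at ht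
      obtain ⟨ht, hb⟩ := ht
      have hk := hkey t ht
      rw [hH, Finset.mem_filter, Finset.mem_product] at ht
      rw [← hb]
      rw [Finset.mem_coe, Finset.mem_filter]
      refine ⟨ht.1.2, rfl, rfl, ?_⟩
      simp only
      have hpos : 0 < p ^ s := pow_pos hp.pos _
      have e1 : n - P * ((α + E * t.1) % Δ + κ * Δ) - Q * (q * t.2.1.2 + t.2.2.2) =
          p ^ s * (r t.2.1.1 + r' t.2.2.1) := by omega
      rw [e1, Nat.mul_div_cancel_left _ hpos]
    · intro t ht t' ht' he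
      rw [Finset.mem_coe, Finset.mem_filter] at ht ht'
      have h2 := ht.2.trans ht'.2.symm
      simp only [Prod.mk.injEq] at h2
      exact Prod.ext h2.2.1 he
  · calc C0 * T.card ≤ C0 * (3 * R) := Nat.mul_le_mul_left _ hTc
      _ = _ := by ring

end Pool.Agent.Helper11.T4
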