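import Mathlib

/-!
# T4 (MP_12a1af_nt): the Chinese remainder code

`crt M r < ∏ i, M i` is the number with residues `r i : ZMod (M i)` (pairwise coprime moduli).
-/

set_option autoImplicit false

open Finset

namespace Pool.Agent.Helper11.T4

variable {ι : Type*} [Fintype ι]

open Classical in
/-- the number with the residues `r i` -/
noncomputable def crt (M : ι → ℕ) (r : ∀ i, ZMod (M i)) : ℕ :=
  if h : ∃ y : ℕ, ∀ i, (y : ZMod (M i)) = r i then Nat.find h else 0

/-- congruence modulo the product -/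
theorem modEq_prod_iff {M : ι → ℕ} (hM : Pairwise (Function.onFun Nat.Coprime M)) (y z : ℕ) :
    y ≡ z [MOD ∏ i, M i] ↔ ∀ i, y ≡ z [MOD M i] := by
  constructor
  · intro h i
    exact h.of_dvd (dvd_prod_of_mem M (mem_univ i))
  · intro h
    rw [Nat.modEq_iff_dvd]
    push_cast
    apply Finset.prod_dvd_of_coprime
    · intro i _ j _ hij
      exact Nat.isCoprime_iff_coprime.2 (hM hij)
    · intro i _
      exact (Nat.modEq_iff_dvd).1 (h i)

theorem modEq_prod_iff' {M : ι → ℕ} (hM : Pairwise (Function.onFun Nat.Coprime M)) (y z : ℕ) :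
    y ≡ z [MOD ∏ i, M i] ↔ ∀ i, (y : ZMod (M i)) = (z : ZMod (M i)) := by
  rw [modEq_prod_iff hM]
  exact forall_congr' fun i => (ZMod.natCast_eq_natCast_iff y z (M i)).symm

theorem exists_crt {M : ι → ℕ} (hM : Pairwise (Function.onFun Nat.Coprime M)) (hpos : ∀ i, 0 < M i)
    (r : ∀ i, ZMod (M i)) : ∃ y : ℕ, y < ∏ i, M i ∧ ∀ i, (y : ZMod (M i)) = r i := by
  have hN : 0 < ∏ i, M i := prod_pos fun i _ => hpos i
  haveI : NeZero (∏ i, M i) := ⟨hN.ne'⟩
  set y := (ZMod.prodEquivPi M hM).symm r with hy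
  refine ⟨y.val, ZMod.val_lt y, ?_⟩
  intro i
  have h1 : (ZMod.prodEquivPi M hM) y = r := by rw [hy]; simp
  have h2 : (ZMod.prodEquivPi M hM) ((y.val : ℕ) : ZMod (∏ i, M i)) = r := by
    rw [ZMod.natCast_zmod_val]; exact h1
  rw [map_natCast] at h2
  have h3 := congrFun h2 i
  simpa using h3

theorem crt_cast {M : ι → ℕ} (hM : Pairwise (Function.onFun Nat.Coprime M)) (hpos : ∀ i, 0 < M i)
    (r : ∀ i, ZMod (M i)) (i : ι) : (crt M r : ZMod (M i)) = r i := by
  classical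
  obtain ⟨y, -, hy⟩ := exists_crt hM hpos r
  have h : ∃ y : ℕ, ∀ i, (y : ZMod (M i)) = r i := ⟨y, hy⟩
  unfold crt
  rw [dif_pos h]
  exact Nat.find_spec h i

theorem crt_lt {M : ι → ℕ} (hM : Pairwise (Function.onFun Nat.Coprime M)) (hpos : ∀ i, 0 < M i)
    (r : ∀ i, ZMod (M i)) : crt M r < ∏ i, M i := by
  classical
  obtain ⟨y, hlt, hy⟩ := exists_crt hM hpos r
  have h : ∃ y : ℕ, ∀ i, (y : ZMod (M i)) = r i := ⟨y, hy⟩
  unfold crt
  rw [dif_pos h]
  exact lt_of_le_of_lt (Nat.find_min' h hy) hlt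

/-- uniqueness -/
theorem eq_crt {M : ι → ℕ} (hM : Pairwise (Function.onFun Nat.Coprime M)) (hpos : ∀ i, 0 < M i)
    {r : ∀ i, ZMod (M i)} {y : ℕ} (hy : y < ∏ i, M i) (h : ∀ i, (y : ZMod (M i)) = r i) :
    y = crt M r := by
  have h1 : y ≡ crt M r [MOD ∏ i, M i] := by
    rw [modEq_prod_iff' hM]
    intro i
    rw [h i, crt_cast hM hpos r i]
  exact Nat.ModEq.eq_of_lt_of_lt h1 hy (crt_lt hM hpos r)

theorem modEq_crt {M : ι → ℕ} (hM : Pairwise (Function.onFun Nat.Coprime M)) (hpos : ∀ i, 0 < M i)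
    {r : ∀ i, ZMod (M i)} {y : ℕ} :
    y ≡ crt M r [MOD ∏ i, M i] ↔ ∀ i, (y : ZMod (M i)) = r i := by
  rw [modEq_prod_iff' hM]
  exact forall_congr' fun i => by rw [crt_cast hM hpos r i]

theorem crt_natCast {M : ι → ℕ} (hM : Pairwise (Function.onFun Nat.Coprime M))
    (hpos : ∀ i, 0 < M i) (y : ℕ) : crt M (fun i => (y : ZMod (M i))) = y % ∏ i, M i := by
  symm
  have hN : 0 < ∏ i, M i := prod_pos fun i _ => hpos i
  apply eq_crt hM hpos (Nat.mod_lt _ hN)
  intro i
  rw [ZMod.natCast_eq_natCast_iff]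
  exact (Nat.mod_modEq y _).of_dvd (dvd_prod_of_mem M (mem_univ i))

theorem crt_inj {M : ι → ℕ} (hM : Pairwise (Function.onFun Nat.Coprime M)) (hpos : ∀ i, 0 < M i)
    {r s : ∀ i, ZMod (M i)} (h : crt M r = crt M s) : r = s := by
  funext i
  rw [← crt_cast hM hpos r i, ← crt_cast hM hpos s i, h]

theorem crt_add {M : ι → ℕ} (hM : Pairwise (Function.onFun Nat.Coprime M)) (hpos : ∀ i, 0 < M i)
    (r s : ∀ i, ZMod (M i)) : crt M r + crt M s ≡ crt M (fun i => r i + s i) [MOD ∏ i, M i] := by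
  rw [modEq_crt hM hpos]
  intro i
  push_cast
  rw [crt_cast hM hpos r i, crt_cast hM hpos s i]

/-- compatibility with divisors of the moduli -/
theorem crt_cast_of_dvd {M M' : ι → ℕ} (hM : Pairwise (Function.onFun Nat.Coprime M))
    (hpos : ∀ i, 0 < M i) (hd : ∀ i, M' i ∣ M i) (r : ∀ i, ZMod (M i)) (i : ι) :
    (crt M r : ZMod (M' i)) = ZMod.castHom (hd i) (ZMod (M' i)) (r i) := by
  have h := crt_cast hM hpos r i
  rw [← h, map_natCast]

theorem cop_of_dvd {M M' : ι → ℕ} (hM : Pairwise (Function.onFun Nat.Coprime M))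
    (hd : ∀ i, M' i ∣ M i) : Pairwise (Function.onFun Nat.Coprime M') := by
  intro i j hij
  exact Nat.Coprime.coprime_dvd_left (hd i) (Nat.Coprime.coprime_dvd_right (hd j) (hM hij))

theorem crt_modEq_of_dvd {M M' : ι → ℕ} (hM : Pairwise (Function.onFun Nat.Coprime M))
    (hpos : ∀ i, 0 < M i) (hd : ∀ i, M' i ∣ M i) (r : ∀ i, ZMod (M i)) :
    crt M r ≡ crt M' (fun i => ZMod.castHom (hd i) (ZMod (M' i)) (r i)) [MOD ∏ i, M' i] := by
  have hpos' : ∀ i, 0 < M' i := fun i => Nat.pos_of_dvd_of_pos (hd i) (hpos i)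
  rw [modEq_crt (cop_of_dvd hM hd) hpos']
  exact crt_cast_of_dvd hM hpos hd r

/-- residues in an interval -/
theorem card_modEq_interval (Q c u L : ℕ) (hQ : 0 < Q) :
    ((Finset.Ico u (u + L)).filter (fun y => y ≡ c [MOD Q])).card ≤ L / Q + 1 := by
  have h : ((Finset.Ico u (u + L)).filter (fun y => y ≡ c [MOD Q])).card ≤
      (Finset.range (L / Q + 1)).card := by
    apply card_le_card_of_injOn (fun y => (y - u) / Q)
    · intro y hy
      simp only [coe_filter, mem_Ico, Set.mem_setOf_eq] at hy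
      simp only [coe_range, Set.mem_Iio]
      exact Nat.lt_succ_of_le (Nat.div_le_div_right (by omega))
    · intro y hy z hz hyz
      simp only [coe_filter, mem_Ico, Set.mem_setOf_eq] at hy hz
      have h1 : y ≡ z [MOD Q] := hy.2.trans hz.2.symm
      have h2 : y - u ≡ z - u [MOD Q] := by
        apply Nat.ModEq.add_right_cancel' u
        rw [Nat.sub_add_cancel hy.1.1, Nat.sub_add_cancel hz.1.1]
        exact h1
      have h3 : (y - u) % Q = (z - u) % Q := h2
      have h4 : (y - u) / Q = (z - u) / Q := hyz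
      have h5 : y - u = z - u := by
        rw [← Nat.div_add_mod (y - u) Q, ← Nat.div_add_mod (z - u) Q, h3, h4]
      omega
  simpa using h

/-- **fresh digits**: among the residue vectors which are prescribed modulo `M' i`, at most
`L / ∏ M' + 1` give a number in an interval of length `L`. (`M' i = M i`: component `i` fixed;
`M' i = 1`: component `i` free.) -/
theorem card_crt_interval [DecidableEq ι] {M M' : ι → ℕ}
    (hM : Pairwise (Function.onFun Nat.Coprime M))
    (hpos : ∀ i, 0 < M i) (hd : ∀ i, M' i ∣ M i) (s : ∀ i, ZMod (M' i)) (u L : ℕ)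
    (R : Finset (∀ i, ZMod (M i)))
    (hR : ∀ r ∈ R, (∀ i, ZMod.castHom (hd i) (ZMod (M' i)) (r i) = s i) ∧
      u ≤ crt M r ∧ crt M r < u + L) :
    R.card ≤ L / (∏ i, M' i) + 1 := by
  have hpos' : ∀ i, 0 < M' i := fun i => Nat.pos_of_dvd_of_pos (hd i) (hpos i)
  have hN' : 0 < ∏ i, M' i := prod_pos fun i _ => hpos' i
  refine le_trans ?_ (card_modEq_interval (∏ i, M' i) (crt M' s) u L hN')
  apply card_le_card_of_injOn (crt M)
  · intro r hr
    obtain ⟨h1, h2, h3⟩ := hR r hr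
    simp only [coe_filter, mem_Ico, Set.mem_setOf_eq]
    refine ⟨⟨h2, h3⟩, ?_⟩
    rw [modEq_crt (cop_of_dvd hM hd) hpos']
    intro i
    rw [crt_cast_of_dvd hM hpos hd r i, h1 i]
  · intro r _ t _ h
    exact crt_inj hM hpos h

/-! ### The linear term -/

/-- a number all of whose components vanish modulo `M' i` is a multiple of `∏ M'` -/
theorem crt_dvd {M M' : ι → ℕ} (hM : Pairwise (Function.onFun Nat.Coprime M))
    (hpos : ∀ i, 0 < M i) (hd : ∀ i, M' i ∣ M i) (r : ∀ i, ZMod (M i))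
    (h0 : ∀ i, ZMod.castHom (hd i) (ZMod (M' i)) (r i) = 0) : (∏ i, M' i) ∣ crt M r := by
  have hpos' : ∀ i, 0 < M' i := fun i => Nat.pos_of_dvd_of_pos (hd i) (hpos i)
  rw [← Nat.modEq_zero_iff_dvd, modEq_prod_iff' (cop_of_dvd hM hd)]
  intro i
  rw [crt_cast_of_dvd hM hpos hd r i, h0 i, Nat.cast_zero]

/-- **the linear term**: prime `g`, moduli `M = p ^ α`, `M' = p ^ α'`; there is `E` with
`N' E = p_g ^ α'_g β` modulo `M g` and `N' E = 0` modulo `M f` for `f ≠ g`. -/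
theorem exists_lin [DecidableEq ι] {p α α' : ι → ℕ} (hp : ∀ i, (p i).Prime)
    (hinj : Function.Injective p) (hα : ∀ i, α' i ≤ α i) (g : ι) (β : ℕ) :
    ∃ E : ℕ, E < ∏ i, p i ^ (α i - α' i) ∧
      (∀ i, i ≠ g → (∏ i, p i ^ α' i) * E ≡ 0 [MOD p i ^ α i]) ∧
      (∏ i, p i ^ α' i) * E ≡ p g ^ α' g * β [MOD p g ^ α g] ∧
      (α' g < α g → β.Coprime (p g) → E.Coprime (p g)) := by
  have hM : Pairwise (Function.onFun Nat.Coprime (fun i => p i ^ α i)) := by
    intro i j hij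
    exact Nat.Coprime.pow _ _ ((Nat.coprime_primes (hp i) (hp j)).2 fun h => hij (hinj h))
  have hpos : ∀ i, 0 < p i ^ α i := fun i => pow_pos (hp i).pos _
  have hd : ∀ i, p i ^ α' i ∣ p i ^ α i := fun i => pow_dvd_pow _ (hα i)
  set N' := ∏ i, p i ^ α' i with hN'
  have hN'pos : 0 < N' := prod_pos fun i _ => pow_pos (hp i).pos _
  set t : ∀ i, ZMod (p i ^ α i) := fun i => if i = g then ((p g ^ α' g * β : ℕ) : ZMod _) else 0
    with ht
  have h0 : ∀ i, ZMod.castHom (hd i) (ZMod (p i ^ α' i)) (t i) = 0 := by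
    intro i
    rw [ht]
    by_cases hi : i = g
    · subst hi
      simp only [if_true]
      rw [map_natCast, ZMod.natCast_eq_zero_iff]
      exact dvd_mul_right _ _
    · simp [hi]
  obtain ⟨E, hE⟩ := crt_dvd hM hpos hd t h0
  have hlt := crt_lt hM hpos t
  refine ⟨E, ?_, ?_, ?_, ?_⟩
  · have h1 : ∏ i, p i ^ α i = N' * ∏ i, p i ^ (α i - α' i) := by
      rw [hN', ← prod_mul_distrib]
      apply prod_congr rfl
      intro i _
      rw [← pow_add, Nat.add_sub_cancel' (hα i)]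
    rw [hE, h1] at hlt
    exact Nat.lt_of_mul_lt_mul_left hlt
  · intro i hi
    have h1 := crt_cast hM hpos t i
    rw [hE] at h1
    rw [← ZMod.natCast_eq_natCast_iff, h1]
    simp [ht, hi]
  · have h1 := crt_cast hM hpos t g
    rw [hE] at h1
    rw [← ZMod.natCast_eq_natCast_iff, h1]
    simp [ht]
  · intro hlt' hβ
    have h1 := crt_cast hM hpos t g
    rw [hE] at h1
    have h2 : N' * E ≡ p g ^ α' g * β [MOD p g ^ α g] := by
      rw [← ZMod.natCast_eq_natCast_iff, h1]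
      simp [ht]
    rw [Nat.coprime_comm, Nat.Prime.coprime_iff_not_dvd (hp g)]
    rintro ⟨F, rfl⟩
    have h3 : p g ^ (α' g + 1) ∣ N' * (p g * F) := by
      have : p g ^ α' g ∣ N' := dvd_prod_of_mem (fun i => p i ^ α' i) (mem_univ g)
      obtain ⟨Q, hQ⟩ := this
      refine ⟨Q * F, ?_⟩
      rw [hQ, pow_succ]
      ring
    have h4 : p g ^ (α' g + 1) ∣ p g ^ α g := pow_dvd_pow _ (by omega)
    have h5 : N' * (p g * F) ≡ p g ^ α' g * β [MOD p g ^ (α' g + 1)] := h2.of_dvd h4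
    have h6 : p g ^ (α' g + 1) ∣ p g ^ α' g * β :=
      (Nat.modEq_zero_iff_dvd).1 (h5.symm.trans ((Nat.modEq_zero_iff_dvd).2 h3))
    rw [pow_succ] at h6
    have h7 : p g ∣ β := Nat.dvd_of_mul_dvd_mul_left (pow_pos (hp g).pos _) h6
    exact (Nat.Prime.coprime_iff_not_dvd (hp g)).1 hβ.symm h7

end Pool.Agent.Helper11.T4
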