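import Pool.Agent.Helper11.T4.Crt
import Pool.Agent.Helper84.ET4.Size

/-!
# T4 (MP_12a1af_nt): Sidon arcs and the linear sum through the Chinese remainder code
-/

set_option autoImplicit false

open Finset

namespace Pool.Agent.Helper11.T4

variable {ι : Type*} [Fintype ι] [DecidableEq ι]

/-- pairs of tuples with given component sums -/
theorem card_pairs_fun (X Y : ι → Finset ℕ) {G : ι → Type*} [∀ i, Add (G i)]
    [∀ i, DecidableEq (G i)] (c : ∀ i, ℕ → G i) (k : ∀ i, G i) (R : ι → ℕ)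
    (hR : ∀ i, ((X i ×ˢ Y i).filter (fun q => c i q.1 + c i q.2 = k i)).card ≤ R i)
    (S : Finset ((ι → ℕ) × (ι → ℕ)))
    (hS : ∀ q ∈ S, ∀ i, q.1 i ∈ X i ∧ q.2 i ∈ Y i ∧ c i (q.1 i) + c i (q.2 i) = k i) :
    S.card ≤ ∏ i, R i := by
  have h : S.card ≤ (Fintype.piFinset (fun i =>
      (X i ×ˢ Y i).filter (fun q => c i q.1 + c i q.2 = k i))).card := by
    apply card_le_card_of_injOn (fun q => fun i => (q.1 i, q.2 i))
    · intro q hq
      simp only [Fintype.coe_piFinset, Set.mem_pi]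
      intro i _
      obtain ⟨h1, h2, h3⟩ := hS q hq i
      simp only [coe_filter, mem_product, Set.mem_setOf_eq]
      exact ⟨⟨h1, h2⟩, h3⟩
    · intro q _ r _ h
      apply Prod.ext
      · funext i; exact (Prod.ext_iff.1 (congrFun h i)).1
      · funext i; exact (Prod.ext_iff.1 (congrFun h i)).2
  rw [Fintype.card_piFinset] at h
  exact h.trans (prod_le_prod' fun i _ => hR i)

/-- **Sidon arc through crt**: tuples `x` with `x i ∈ X i`, components `c i (x i)` in a given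
residue class modulo `M' i`, and code in an interval of length `L`. (`X i` may be a singleton,
then `M' i = M i`, `R i = 1`.) -/
theorem arc_crt {M M' : ι → ℕ} (hM : Pairwise (Function.onFun Nat.Coprime M))
    (hpos : ∀ i, 0 < M i) (hd : ∀ i, M' i ∣ M i) (X : ι → Finset ℕ) (c : ∀ i, ℕ → ZMod (M i))
    (R : ι → ℕ)
    (hR : ∀ i (k : ZMod (M i)), ((X i ×ˢ X i).filter (fun q => c i q.1 + c i q.2 = k)).card ≤ R i)
    (s : ∀ i, ZMod (M' i)) (u L : ℕ) (S : Finset (ι → ℕ))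
    (hS : ∀ x ∈ S, (∀ i, x i ∈ X i) ∧
      (∀ i, ZMod.castHom (hd i) (ZMod (M' i)) (c i (x i)) = s i) ∧
      u ≤ crt M (fun i => c i (x i)) ∧ crt M (fun i => c i (x i)) < u + L) :
    S.card ^ 2 ≤ (∏ i, R i) * (2 * L / (∏ i, M' i) + 1) := by
  have hpos' : ∀ i, 0 < M' i := fun i => Nat.pos_of_dvd_of_pos (hd i) (hpos i)
  have hN' : 0 < ∏ i, M' i := prod_pos fun i _ => hpos' i
  set C : (ι → ℕ) → ℕ := fun x => crt M (fun i => c i (x i)) with hC
  set J := (Finset.Ico (2 * u) (2 * u + 2 * L)).filter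
    (fun y => y ≡ crt M' s + crt M' s [MOD ∏ i, M' i]) with hJ
  have hmod : ∀ x ∈ S, C x ≡ crt M' s [MOD ∏ i, M' i] := by
    intro x hx
    rw [modEq_crt (cop_of_dvd hM hd) hpos']
    intro i
    rw [hC]
    simp only
    rw [crt_cast_of_dvd hM hpos hd _ i]
    exact (hS x hx).2.1 i
  have h1 : (S ×ˢ S).card ≤ (∏ i, R i) * J.card := by
    apply card_le_mul_card_image_of_maps_to (f := fun q : (ι → ℕ) × (ι → ℕ) => C q.1 + C q.2)
    · intro q hq
      rw [mem_product] at hq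
      have a1 := hS _ hq.1
      have a2 := hS _ hq.2
      rw [hJ, mem_filter, mem_Ico]
      have b1 : u ≤ C q.1 := a1.2.2.1
      have b2 : C q.1 < u + L := a1.2.2.2
      have b3 : u ≤ C q.2 := a2.2.2.1
      have b4 : C q.2 < u + L := a2.2.2.2
      refine ⟨⟨by omega, by omega⟩, (hmod _ hq.1).add (hmod _ hq.2)⟩
    · intro t _
      apply card_pairs_fun X X c (fun i => (t : ZMod (M i))) R (fun i => hR i _)
      intro q hq i
      rw [mem_filter, mem_product] at hq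
      refine ⟨(hS _ hq.1.1).1 i, (hS _ hq.1.2).1 i, ?_⟩
      have e1 : ((C q.1 + C q.2 : ℕ) : ZMod (M i)) = ((t : ℕ) : ZMod (M i)) := by rw [hq.2]
      rw [Nat.cast_add, hC] at e1
      simp only at e1
      rw [crt_cast hM hpos, crt_cast hM hpos] at e1
      exact e1
  rw [card_product, ← pow_two] at h1
  refine h1.trans (Nat.mul_le_mul_left _ ?_)
  exact card_modEq_interval (∏ i, M' i) _ (2 * u) (2 * L) hN'

/-- **the linear sum**: if all components of `y` are `k f` except that the component `G` is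
`k G + (lg (N₀ + i p_G ^ (α' G + 1)) - lg N₀)`, then `y = crt k + N' E i` modulo `N`. -/
theorem lin_code {p α α' : ι → ℕ} (hp : ∀ i, (p i).Prime) (hinj : Function.Injective p)
    (hα : ∀ i, α' i ≤ α i) (G : ι) (hG2 : p G ≠ 2) (hG : α G ≤ 2 * α' G + 1) {N₀ : ℕ}
    (hN₀ : ¬ p G ∣ N₀) :
    ∃ E : ℕ, E < ∏ i, p i ^ (α i - α' i) ∧ (α' G < α G → E.Coprime (p G)) ∧
      ∀ (i y : ℕ) (k : ∀ f, ZMod (p f ^ α f)), (∀ f, f ≠ G → (y : ZMod (p f ^ α f)) = k f) →
        (y : ZMod (p G ^ α G)) = k G + (ET4.lg (p G) (α G) (N₀ + i * p G ^ (α' G + 1)) -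
          ET4.lg (p G) (α G) N₀) →
        y ≡ crt (fun f => p f ^ α f) k + (∏ f, p f ^ α' f) * E * i [MOD ∏ f, p f ^ α f] := by
  have hM : Pairwise (Function.onFun Nat.Coprime (fun i => p i ^ α i)) := by
    intro i j hij
    exact Nat.Coprime.pow _ _ ((Nat.coprime_primes (hp i) (hp j)).2 fun h => hij (hinj h))
  have hpos : ∀ i, 0 < p i ^ α i := fun i => pow_pos (hp i).pos _
  obtain ⟨u, hu, hlin⟩ := ET4.lg_add_mul_pow (hp G) hG2 (a := α G) (j := α' G + 1) hN₀
    (by omega) (by omega)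
  obtain ⟨E, hE, h0, h1, h2⟩ := exists_lin hp hinj hα G u
  refine ⟨E, hE, fun h => h2 h ((Nat.Prime.coprime_iff_not_dvd (hp G)).2 hu).symm, ?_⟩
  intro i y k hk hkG
  rw [modEq_prod_iff' hM]
  intro f
  rw [Nat.cast_add, crt_cast hM hpos k f]
  by_cases hf : f = G
  · subst hf
    rw [hkG, hlin i]
    have h3 : ((((∏ j, p j ^ α' j) * E : ℕ)) : ZMod (p f ^ α f)) =
        ((p f ^ α' f * u : ℕ) : ZMod (p f ^ α f)) := (ZMod.natCast_eq_natCast_iff _ _ _).2 h1
    rw [Nat.cast_mul ((∏ j, p j ^ α' j) * E) i, h3]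
    rw [show α' f + 1 - 1 = α' f by omega]
    push_cast
    ring
  · rw [hk f hf]
    have h3 : ((((∏ j, p j ^ α' j) * E : ℕ)) : ZMod (p f ^ α f)) =
        ((0 : ℕ) : ZMod (p f ^ α f)) := (ZMod.natCast_eq_natCast_iff _ _ _).2 (h0 f hf)
    rw [Nat.cast_mul ((∏ j, p j ^ α' j) * E) i, h3]
    simp

end Pool.Agent.Helper11.T4
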