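import Pool.Agent.Helper5.ET.Defs
import Pool.Agent.Helper3.T4.Decode

/-!
# The sum of two codes with one growing family
-/

namespace Pool.Agent.Helper11.T4

open Finset Pool.Agent.Helper27.T4 Pool.Agent.Helper5.ET Pool.Agent.Helper3.T4

/-! ## basic facts -/

theorem cnt_mono (f : Fin 3) {j k : ℕ} (h : j ≤ k) : cnt f j ≤ cnt f k :=
  Finset.card_le_card (Finset.filter_subset_filter _ (Finset.range_mono h))

theorem av_mono {j k : ℕ} (h : j ≤ k) : av j ≤ av k := fun f => cnt_mono f h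

theorem Nj_pos (j : ℕ) : 0 < Nj j := NN_pos pr_prime _

theorem Nj_dvd {j k : ℕ} (h : j ≤ k) : Nj j ∣ Nj k := NN_dvd pr (av_mono h)

theorem Nj_le {j k : ℕ} (h : j ≤ k) : Nj j ≤ Nj k := Nat.le_of_dvd (Nj_pos k) (Nj_dvd h)

theorem Nj_mul_div {j k : ℕ} (h : j ≤ k) : Nj j * (Nj k / Nj j) = Nj k :=
  Nat.mul_div_cancel' (Nj_dvd h)

theorem code_lt (s : ℕ) (w : Key → ℕ) (x : Fin 3 → ℕ) : code s w x < Nj (se s) :=
  cv_lt pr_prime pr_inj _ _

theorem code_comp (s : ℕ) (w : Key → ℕ) (x : Fin 3 → ℕ) (f : Fin 3) {j : ℕ} (hj : j ≤ se s)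
    (hx : (x f).Coprime (pr f)) :
    ((code s w x : ℕ) : ZMod (pr f ^ av j f)) =
      Lg (pr f) (av j f) (x f) + ((hv s w f x : ℕ) : ZMod (pr f ^ av j f)) := by
  have h1 : ((code s w x : ℕ) : ZMod (pr f ^ av (se s) f)) =
      Lg (pr f) (av (se s) f) (x f) + ((hv s w f x : ℕ) : ZMod (pr f ^ av (se s) f)) :=
    cv_cast_comp pr_prime pr_inj _ _ f
  have h2 := congrArg (ZMod.castHom (pow_dvd_pow (pr f) (av_mono hj f))
    (ZMod (pr f ^ av j f))) h1
  rw [map_natCast, map_add, map_natCast] at h2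
  rw [h2]
  congr 1
  exact Lg_red (pr_prime f) (pr_ne_two f) _ _ _ hx (cnt_mono f hj)

theorem hv_congr (s : ℕ) (w : Key → ℕ) (f : Fin 3) (x y : Fin 3 → ℕ)
    (h : ∀ g ∈ pre (sl s) f, x g = y g) : hv s w f x = hv s w f y := by
  unfold hv
  congr 3
  funext g
  unfold mask
  split_ifs with hg
  · exact h g hg
  · rfl

/-- the sum of two codes, one growing family `G`; `K` are the known families, the families outside
`insert G K` do not grow between `sl s'` and `se s'` -/
theorem growth_form (s s' : ℕ) (G : Fin 3) (K : Finset (Fin 3)) (hG : G ∉ K)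
    (hK : ∀ f, (f = G ∨ f ∈ K) → pre (sl s) f ⊆ K ∧ pre (sl s') f ⊆ K)
    (hee : se s' ≤ se s) (hl : sl s' ≤ se s')
    (hrest : ∀ f, f ≠ G → f ∉ K → cnt f (se s') = cnt f (sl s'))
    (hgrow : cnt G (se s') ≤ 2 * cnt G (sl s') + 1)
    (hlt : cnt G (sl s') < cnt G (se s'))
    (w : Key → ℕ) (n : ℕ) (z : Fin 3 → ℕ × ℕ) (r : ℕ) (hr : r.Coprime (pr G)) :
    ∃ α E : ℕ, α < Nj (se s') / Nj (sl s') ∧ E < Nj (se s') / Nj (sl s') ∧ E.Coprime (pr G) ∧
      ∀ x x' : Fin 3 → ℕ, (∀ f ∈ K, x f = (z f).1 ∧ x' f = (z f).2) →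
        (∀ f, (x f).Coprime (pr f) ∧ (x' f).Coprime (pr f)) →
        (x G * x' G) % pr G ^ (cnt G (sl s') + 1) = r →
        (code s w x + code s' w x') % Nj (sl s') = n % Nj (sl s') →
        (code s w x + code s' w x') % Nj (se s') = n % Nj (sl s') + Nj (sl s') *
          ((α + E * ((x G * x' G) / pr G ^ (cnt G (sl s') + 1))) %
            (Nj (se s') / Nj (sl s'))) := by
  classical
  set a : Fin 3 → ℕ := av (se s') with ha
  set b : Fin 3 → ℕ := av (sl s') with hb
  have hba : b ≤ a := av_mono hl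
  set z1 : Fin 3 → ℕ := fun f => (z f).1 with hz1
  set z2 : Fin 3 → ℕ := fun f => (z f).2 with hz2
  set T0 : ∀ f, ZMod (pr f ^ a f) := fun f =>
    if f ∈ K then Lg (pr f) (a f) (z1 f) + ((hv s w f z1 : ℕ) : ZMod (pr f ^ a f)) +
      (Lg (pr f) (a f) (z2 f) + ((hv s' w f z2 : ℕ) : ZMod (pr f ^ a f)))
    else if f = G then Lg (pr f) (a f) r + ((hv s w f z1 : ℕ) : ZMod (pr f ^ a f)) +
      ((hv s' w f z2 : ℕ) : ZMod (pr f ^ a f))
    else (n : ZMod (pr f ^ a f)) with hT0
  obtain ⟨β, hβ, hgr⟩ := grow (pr_prime G) (pr_ne_two G) (a G) (b G) r hr hgrow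
  set b2 : Fin 3 → ℕ := Function.update a G (b G) with hb2
  obtain ⟨E1, hE1, hE2⟩ := exists_single pr_prime pr_inj (a := a) (b := b2) G
    (fun i hi => by rw [hb2, Function.update_of_ne hi]) β
  have hb2G : b2 G = b G := by rw [hb2, Function.update_self]
  rw [hb2G] at hE2
  have hE3 : ∀ (r : ∀ i, ZMod (pr i ^ a i)) (n : ℕ),
      cc pr_prime pr_inj a (Function.update r G (r G + ((pr G ^ b G * (β * n) : ℕ) :
        ZMod (pr G ^ a G)))) =
        cc pr_prime pr_inj a r + ((NN pr b2 * (E1 * n) : ℕ) : ZMod (NN pr a)) := by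
    intro r n
    convert hE2 r n using 3
  -- the factor between `NN b2` and `NN b`
  set P : ℕ := ∏ f ∈ univ.erase G, pr f ^ (a f - b f) with hP
  have hPc : P.Coprime (pr G) := by
    apply Nat.Coprime.prod_left
    intro f hf
    apply Nat.Coprime.pow_left
    rw [Nat.coprime_primes (pr_prime f) (pr_prime G)]
    intro h
    exact (Finset.ne_of_mem_erase hf) (pr_inj h)
  have hNb2 : NN pr b2 = Nj (sl s') * P := by
    have e1 : NN pr b2 = pr G ^ b G * ∏ f ∈ univ.erase G, pr f ^ a f := by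
      rw [NN, ← Finset.mul_prod_erase univ (fun i => pr i ^ b2 i) (Finset.mem_univ G), hb2G]
      congr 1
      refine Finset.prod_congr rfl (fun f hf => ?_)
      rw [hb2, Function.update_of_ne (Finset.ne_of_mem_erase hf)]
    have e2 : Nj (sl s') = pr G ^ b G * ∏ f ∈ univ.erase G, pr f ^ b f := by
      rw [Nj, NN, ← Finset.mul_prod_erase univ (fun i => pr i ^ av (sl s') i)
        (Finset.mem_univ G)]
    rw [e1, e2, hP, mul_assoc, ← Finset.prod_mul_distrib]
    congr 1
    refine Finset.prod_congr rfl (fun f _ => ?_)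
    rw [← pow_add, Nat.add_sub_cancel' (hba f)]
  set Q : ℕ := Nj (se s') / Nj (sl s') with hQ
  have hQmul : Nj (sl s') * Q = Nj (se s') := Nj_mul_div hl
  have hNe : NN pr a = Nj (sl s') * Q := by rw [hQmul]; rfl
  have hQpos : 0 < Q := by
    rcases Nat.eq_zero_or_pos Q with h | h
    · rw [h, mul_zero] at hQmul
      exact absurd hQmul.symm (Nj_pos _).ne'
    · exact h
  have hpQ : pr G ∣ Q := by
    have e1 : Nj (sl s') * (pr G * (P * pr G ^ (a G - b G - 1))) = Nj (sl s') * Q := by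
      rw [hQmul]
      have e2 : Nj (se s') = pr G ^ a G * ∏ f ∈ univ.erase G, pr f ^ a f := by
        rw [Nj, NN, ← Finset.mul_prod_erase univ (fun i => pr i ^ av (se s') i)
          (Finset.mem_univ G)]
      have e3 : Nj (sl s') * P = pr G ^ b G * ∏ f ∈ univ.erase G, pr f ^ a f := by
        rw [← hNb2, NN, ← Finset.mul_prod_erase univ (fun i => pr i ^ b2 i)
          (Finset.mem_univ G), hb2G]
        congr 1
        refine Finset.prod_congr rfl (fun f hf => ?_)
        rw [hb2, Function.update_of_ne (Finset.ne_of_mem_erase hf)]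
      have e4 : pr G ^ a G = pr G ^ b G * (pr G * pr G ^ (a G - b G - 1)) := by
        rw [← pow_succ', ← pow_add]
        congr 1
        have h1 : b G < a G := hlt
        omega
      rw [e2, e4]
      calc Nj (sl s') * (pr G * (P * pr G ^ (a G - b G - 1))) =
          (Nj (sl s') * P) * (pr G * pr G ^ (a G - b G - 1)) := by ring
        _ = _ := by rw [e3]; ring
    have e5 := Nat.eq_of_mul_eq_mul_left (Nj_pos (sl s')) e1
    rw [← e5]
    exact dvd_mul_right _ _
  set C0 : ℕ := cv pr_prime pr_inj a T0 with hC0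
  have hC0lt : C0 < Nj (sl s') * Q := by rw [← hNe]; exact cv_lt pr_prime pr_inj a T0
  refine ⟨C0 / Nj (sl s'), (P * E1) % Q, Nat.div_lt_of_lt_mul hC0lt, Nat.mod_lt _ hQpos, ?_, ?_⟩
  · have h1 : (P * E1).Coprime (pr G) := Nat.Coprime.mul_left hPc (hE1 hβ)
    have h2 : (P * E1) % Q % pr G = (P * E1) % pr G := Nat.mod_mod_of_dvd _ hpQ
    unfold Nat.Coprime at h1 ⊢
    rw [Nat.gcd_comm, Nat.gcd_rec] at h1 ⊢
    rw [h2]
    exact h1
  · intro x x' hxz hcop hres hmod
    set i : ℕ := (x G * x' G) / pr G ^ (cnt G (sl s') + 1) with hi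
    have hprod : x G * x' G = r + i * pr G ^ (b G + 1) := by
      rw [hi, ← hres, mul_comm (_ / _)]
      exact (Nat.mod_add_div _ _).symm
    have hv1 : ∀ f, (f = G ∨ f ∈ K) → hv s w f x = hv s w f z1 := by
      intro f hf
      exact hv_congr s w f x z1 (fun g hg => (hxz g ((hK f hf).1 hg)).1)
    have hv2 : ∀ f, (f = G ∨ f ∈ K) → hv s' w f x' = hv s' w f z2 := by
      intro f hf
      exact hv_congr s' w f x' z2 (fun g hg => (hxz g ((hK f hf).2 hg)).2)
    have hcomp : ((code s w x + code s' w x' : ℕ) : ZMod (NN pr a)) =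
        cc pr_prime pr_inj a (Function.update T0 G
          (T0 G + ((pr G ^ b G * (β * i) : ℕ) : ZMod (pr G ^ a G)))) := by
      rw [natCast_eq_cc_iff]
      intro f
      by_cases hfG : f = G
      · subst hfG
        rw [Function.update_self]
        have h1 := code_comp s w x f (j := se s') hee (hcop f).1
        have h2 := code_comp s' w x' f (j := se s') le_rfl (hcop f).2
        rw [Nat.cast_add, h1, h2, hT0]
        simp only [if_neg hG, if_true]
        rw [hv1 f (Or.inl rfl), hv2 f (Or.inl rfl)]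
        have h3 : Lg (pr f) (a f) (x f) + Lg (pr f) (a f) (x' f) = Lg (pr f) (a f) r +
            ((pr f ^ b f * (β * i) : ℕ) : ZMod (pr f ^ a f)) := by
          rw [← hgr i, ← hprod, Lg_mul (pr_prime f) (pr_ne_two f) _ _ _ (hcop f).1 (hcop f).2]
        calc _ = (Lg (pr f) (a f) (x f) + Lg (pr f) (a f) (x' f)) +
            (((hv s w f z1 : ℕ) : ZMod (pr f ^ a f)) + ((hv s' w f z2 : ℕ) : ZMod (pr f ^ a f))) := by
              ring
          _ = _ := by rw [h3]; ring
      · rw [Function.update_of_ne hfG]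
        by_cases hfK : f ∈ K
        · have h1 := code_comp s w x f (j := se s') hee (hcop f).1
          have h2 := code_comp s' w x' f (j := se s') le_rfl (hcop f).2
          rw [Nat.cast_add, h1, h2, hT0]
          simp only [if_pos hfK]
          rw [hv1 f (Or.inr hfK), hv2 f (Or.inr hfK)]
          have h3 := hxz f hfK
          rw [h3.1, h3.2]
        · rw [hT0]
          simp only [if_neg hfK, if_neg hfG]
          have h4 : a f = b f := hrest f hfG hfK
          have h5 : pr f ^ a f ∣ Nj (sl s') := by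
            rw [h4]
            exact pow_dvd_NN pr b f
          have h6 : (code s w x + code s' w x') ≡ n [MOD Nj (sl s')] := hmod
          exact (ZMod.natCast_eq_natCast_iff _ _ _).mpr (h6.of_dvd h5)
    rw [hE3, ← cv_cast pr_prime pr_inj a T0, ← hC0, ← Nat.cast_add,
      ZMod.natCast_eq_natCast_iff, hNb2, hNe] at hcomp
    have h7 : (code s w x + code s' w x') % (Nj (sl s') * Q) =
        (C0 + Nj (sl s') * (P * E1 * i)) % (Nj (sl s') * Q) := by
      have e : Nj (sl s') * P * (E1 * i) = Nj (sl s') * (P * E1 * i) := by ring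
      rw [e] at hcomp
      exact hcomp
    have h8 : C0 % Nj (sl s') = n % Nj (sl s') := by
      rw [← hmod]
      have h9 := congrArg (fun t => t % Nj (sl s')) h7
      simp only [Nat.mod_mul_right_mod] at h9
      rw [h9, Nat.add_mul_mod_self_left]
    rw [← hQmul, h7, Nat.mod_mul, Nat.add_mul_mod_self_left, h8,
      Nat.add_mul_div_left _ _ (Nj_pos _)]
    congr 2
    rw [Nat.add_mod, Nat.add_mod (C0 / Nj (sl s')) (P * E1 % Q * i), Nat.mod_mul_mod]

end Pool.Agent.Helper11.T4
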