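import Mathlib

/-!
# T4 (MP_12a1af_nt): the index of an odd prime

`L p a x < p ^ a` is the discrete logarithm of `x ^ (p - 1)` to the base `1 + p` modulo
`p ^ (a + 1)`.
-/

set_option autoImplicit false

open Finset

namespace Pool.Agent.Helper11.T4

section

variable {p : ℕ}

/-- powers of `1 + p` modulo `p ^ (a + 1)` -/
theorem pow_iff (hp : p.Prime) (hp2 : p ≠ 2) (a k j : ℕ) :
    (1 + p) ^ k ≡ (1 + p) ^ j [MOD p ^ (a + 1)] ↔ k ≡ j [MOD p ^ a] := by
  have ho := ZMod.orderOf_one_add_prime hp hp2 a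
  have hu : IsUnit ((1 + p : ZMod (p ^ (a + 1)))) := by
    rw [← Nat.cast_one (R := ZMod _), ← Nat.cast_add, ZMod.isUnit_iff_coprime]
    apply Nat.Coprime.pow_right
    simp only [Nat.coprime_add_self_left, Nat.coprime_one_left_eq_true]
  have ho' : orderOf hu.unit = p ^ a := by
    rw [← orderOf_injective _ Units.coeHom_injective hu.unit, Units.coeHom_apply,
      IsUnit.unit_spec]
    exact ho
  rw [← ZMod.natCast_eq_natCast_iff, ← ho', ← pow_eq_pow_iff_modEq, Units.ext_iff]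
  push_cast
  rw [IsUnit.unit_spec]

theorem one_mod (hp : p.Prime) : 1 % p = 1 := Nat.mod_eq_of_lt hp.one_lt

/-- every number `1` modulo `p` is a power of `1 + p` -/
theorem ex_pow (hp : p.Prime) (hp2 : p ≠ 2) (a x : ℕ) (hx : x ≡ 1 [MOD p]) :
    ∃ k, k < p ^ a ∧ (1 + p) ^ k ≡ x [MOD p ^ (a + 1)] := by
  have hpos : 0 < p ^ (a + 1) := pow_pos hp.pos _
  set S := (range (p ^ (a + 1))).filter (fun z => z % p = 1) with hS
  set T := (range (p ^ a)).image (fun k => (1 + p) ^ k % p ^ (a + 1)) with hT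
  have hTc : T.card = p ^ a := by
    rw [hT, card_image_of_injOn, card_range]
    intro k hk j hj hkj
    have h1 : k ≡ j [MOD p ^ a] := (pow_iff hp hp2 a k j).1 hkj
    have hk' : k < p ^ a := by simpa using hk
    have hj' : j < p ^ a := by simpa using hj
    exact Nat.ModEq.eq_of_lt_of_lt h1 hk' hj'
  have hSc : S.card ≤ p ^ a := by
    have : S ⊆ (range (p ^ a)).image (fun t => p * t + 1) := by
      intro z hz
      rw [hS, mem_filter, mem_range] at hz
      rw [mem_image]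
      refine ⟨z / p, ?_, ?_⟩
      · rw [mem_range]
        apply Nat.div_lt_of_lt_mul
        rw [← pow_succ']
        exact hz.1
      · have := Nat.div_add_mod z p
        rw [hz.2] at this
        exact this
    calc S.card ≤ _ := card_le_card this
      _ ≤ _ := card_image_le
      _ = _ := card_range _
  have hTS : T ⊆ S := by
    intro z hz
    rw [hT, mem_image] at hz
    obtain ⟨k, hk, rfl⟩ := hz
    rw [hS, mem_filter, mem_range]
    refine ⟨Nat.mod_lt _ hpos, ?_⟩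
    rw [Nat.mod_mod_of_dvd _ (dvd_pow_self p (Nat.succ_ne_zero a))]
    have : (1 + p) ^ k ≡ 1 ^ k [MOD p] := Nat.ModEq.pow k (by simp [Nat.ModEq])
    rw [one_pow] at this
    have h2 := this
    unfold Nat.ModEq at h2
    rw [h2, one_mod hp]
  have hEq : T = S := eq_of_subset_of_card_le hTS (by rw [hTc]; exact hSc)
  have hxS : x % p ^ (a + 1) ∈ S := by
    rw [hS, mem_filter, mem_range]
    refine ⟨Nat.mod_lt _ hpos, ?_⟩
    rw [Nat.mod_mod_of_dvd _ (dvd_pow_self p (Nat.succ_ne_zero a))]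
    unfold Nat.ModEq at hx
    rw [hx, one_mod hp]
  rw [← hEq, hT, mem_image] at hxS
  obtain ⟨k, hk, hkx⟩ := hxS
  exact ⟨k, by simpa using hk, hkx⟩

theorem pow_sub_one_mod (hp : p.Prime) {x : ℕ} (hx : x.Coprime p) : x ^ (p - 1) ≡ 1 [MOD p] := by
  have := Nat.ModEq.pow_totient hx
  rwa [Nat.totient_prime hp] at this

theorem ex_idx (hp : p.Prime) (hp2 : p ≠ 2) (a x : ℕ) (hx : x.Coprime p) :
    ∃ k, k < p ^ a ∧ (1 + p) ^ k ≡ x ^ (p - 1) [MOD p ^ (a + 1)] :=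
  ex_pow hp hp2 a _ (pow_sub_one_mod hp hx)

open Classical in
/-- the index of `x` -/
noncomputable def L (p a x : ℕ) : ℕ :=
  if h : ∃ k, k < p ^ a ∧ (1 + p) ^ k ≡ x ^ (p - 1) [MOD p ^ (a + 1)] then Nat.find h else 0

theorem L_lt (hp : p.Prime) (a x : ℕ) : L p a x < p ^ a := by
  classical
  unfold L
  split_ifs with h
  · exact (Nat.find_spec h).1
  · exact pow_pos hp.pos _

theorem L_spec (hp : p.Prime) (hp2 : p ≠ 2) (a x : ℕ) (hx : x.Coprime p) :
    (1 + p) ^ (L p a x) ≡ x ^ (p - 1) [MOD p ^ (a + 1)] := by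
  classical
  have h := ex_idx hp hp2 a x hx
  unfold L
  rw [dif_pos h]
  exact (Nat.find_spec h).2

theorem L_uniq (hp : p.Prime) (hp2 : p ≠ 2) (a x k : ℕ) (hx : x.Coprime p)
    (hk : (1 + p) ^ k ≡ x ^ (p - 1) [MOD p ^ (a + 1)]) : L p a x ≡ k [MOD p ^ a] :=
  (pow_iff hp hp2 a _ _).1 ((L_spec hp hp2 a x hx).trans hk.symm)

/-- the index depends on the residue modulo `p ^ (a + 1)` only -/
theorem L_per (a x y : ℕ) (h : x ≡ y [MOD p ^ (a + 1)]) : L p a x = L p a y := by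
  classical
  have hh : x ^ (p - 1) ≡ y ^ (p - 1) [MOD p ^ (a + 1)] := h.pow _
  have he : (fun k => k < p ^ a ∧ (1 + p) ^ k ≡ x ^ (p - 1) [MOD p ^ (a + 1)]) =
      (fun k => k < p ^ a ∧ (1 + p) ^ k ≡ y ^ (p - 1) [MOD p ^ (a + 1)]) := by
    funext k
    apply propext
    constructor
    · exact fun h => ⟨h.1, h.2.trans hh⟩
    · exact fun h => ⟨h.1, h.2.trans hh.symm⟩
  unfold L
  simp only [he]

/-- coherence -/
theorem L_coh (hp : p.Prime) (hp2 : p ≠ 2) (a b x : ℕ) (hab : a ≤ b) (hx : x.Coprime p) :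
    L p b x ≡ L p a x [MOD p ^ a] := by
  apply Nat.ModEq.symm
  apply L_uniq hp hp2 a x _ hx
  exact (L_spec hp hp2 b x hx).of_dvd (pow_dvd_pow p (by omega))

theorem L_coh' (hp : p.Prime) (hp2 : p ≠ 2) (a b x : ℕ) (hab : a ≤ b) (hx : x.Coprime p) :
    L p b x % p ^ a = L p a x := by
  have h := L_coh hp hp2 a b x hab hx
  unfold Nat.ModEq at h
  rw [h, Nat.mod_eq_of_lt (L_lt hp a x)]

/-- the index of a product -/
theorem L_mul (hp : p.Prime) (hp2 : p ≠ 2) (a x y : ℕ) (hx : x.Coprime p) (hy : y.Coprime p) :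
    L p a (x * y) ≡ L p a x + L p a y [MOD p ^ a] := by
  apply L_uniq hp hp2 a _ _ (Nat.Coprime.mul_left hx hy)
  rw [pow_add (1 + p), mul_pow]
  exact (L_spec hp hp2 a x hx).mul (L_spec hp hp2 a y hy)

theorem L_one (hp : p.Prime) (hp2 : p ≠ 2) (a : ℕ) : L p a 1 = 0 := by
  have h : L p a 1 ≡ 0 [MOD p ^ a] := by
    apply L_uniq hp hp2 a _ _ (Nat.coprime_one_left p)
    simp [Nat.ModEq]
  exact Nat.ModEq.eq_of_lt_of_lt h (L_lt hp a 1) (pow_pos hp.pos _)

theorem L_pow (hp : p.Prime) (hp2 : p ≠ 2) (a x t : ℕ) (hx : x.Coprime p) :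
    L p a (x ^ t) ≡ t * L p a x [MOD p ^ a] := by
  induction t with
  | zero => simp [L_one hp hp2, Nat.ModEq]
  | succ t ih =>
    rw [pow_succ, Nat.succ_mul]
    exact (L_mul hp hp2 a _ x (hx.pow_left t) hx).trans (ih.add_right _)

/-- the kernel, first form -/
theorem L_ker (hp : p.Prime) (hp2 : p ≠ 2) (a x y : ℕ) (hx : x.Coprime p) (hy : y.Coprime p)
    (h : L p a x ≡ L p a y [MOD p ^ a]) : x ^ (p - 1) ≡ y ^ (p - 1) [MOD p ^ (a + 1)] :=
  (L_spec hp hp2 a x hx).symm.trans (((pow_iff hp hp2 a _ _).2 h).trans (L_spec hp hp2 a y hy))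

theorem ex_inv (a z : ℕ) (hz : z.Coprime p) : ∃ w, z * w ≡ 1 [MOD p ^ a] := by
  rcases Nat.eq_zero_or_pos a with rfl | ha
  · exact ⟨0, by simp [Nat.modEq_one]⟩
  have hc : z.Coprime (p ^ a) := hz.pow_right a
  by_cases h1 : p ^ a = 1
  · exact ⟨0, by rw [h1]; exact Nat.modEq_one⟩
  by_cases h0 : p ^ a = 0
  · rw [h0] at hc ⊢
    rw [Nat.coprime_zero_right] at hc
    exact ⟨1, by rw [hc]⟩
  obtain ⟨m, -, hm⟩ := Nat.exists_mul_mod_eq_one_of_coprime hc (by omega)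
  refine ⟨m, ?_⟩
  unfold Nat.ModEq
  rw [hm, Nat.mod_eq_of_lt (by omega)]

/-- the kernel, second form: the index and the residue modulo `p` determine the residue modulo
`p ^ (a + 1)` -/
theorem pow_inj (hp : p.Prime) (hp2 : p ≠ 2) (a z w : ℕ) (hw : w.Coprime p)
    (h : z ^ (p - 1) ≡ w ^ (p - 1) [MOD p ^ (a + 1)]) (hzw : z ≡ w [MOD p]) :
    z ≡ w [MOD p ^ (a + 1)] := by
  obtain ⟨v, hv⟩ := ex_inv (a + 1) w hw
  have hdv : p ∣ p ^ (a + 1) := dvd_pow_self p (Nat.succ_ne_zero a)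
  have hv1 : w * v ≡ 1 [MOD p] := hv.of_dvd hdv
  have hu1 : z * v ≡ 1 [MOD p] := (hzw.mul_right v).trans hv1
  obtain ⟨k, -, hk⟩ := ex_pow hp hp2 a _ hu1
  have hup : (z * v) ^ (p - 1) ≡ 1 [MOD p ^ (a + 1)] := by
    have h1 : (z * v) ^ (p - 1) ≡ (w * v) ^ (p - 1) [MOD p ^ (a + 1)] := by
      rw [mul_pow, mul_pow]
      exact h.mul_right _
    have h2 : (w * v) ^ (p - 1) ≡ 1 ^ (p - 1) [MOD p ^ (a + 1)] := hv.pow _
    rw [one_pow] at h2
    exact h1.trans h2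
  have h3 : (1 + p) ^ (k * (p - 1)) ≡ (1 + p) ^ 0 [MOD p ^ (a + 1)] := by
    rw [pow_mul, pow_zero]
    exact (hk.pow _).trans hup
  rw [pow_iff hp hp2] at h3
  have h4 : p ^ a ∣ k * (p - 1) := (Nat.modEq_zero_iff_dvd).1 h3
  have h5 : p ^ a ∣ k := by
    apply Nat.Coprime.dvd_of_dvd_mul_right _ h4
    apply Nat.Coprime.pow_left
    rw [Nat.coprime_self_sub_right hp.pos]
    simp
  have h6 : (1 + p) ^ k ≡ (1 + p) ^ 0 [MOD p ^ (a + 1)] :=
    (pow_iff hp hp2 a _ _).2 ((Nat.modEq_zero_iff_dvd).2 h5)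
  rw [pow_zero] at h6
  have h7 : z * v ≡ 1 [MOD p ^ (a + 1)] := hk.symm.trans h6
  have h8 : z * (w * v) ≡ z * 1 [MOD p ^ (a + 1)] := hv.mul_left z
  have h9 : w * (z * v) ≡ w * 1 [MOD p ^ (a + 1)] := h7.mul_left w
  rw [mul_one] at h8 h9
  have h10 : z * (w * v) = w * (z * v) := by ring
  rw [h10] at h8
  exact h8.symm.trans h9

theorem L_inj (hp : p.Prime) (hp2 : p ≠ 2) (a z w : ℕ) (hz : z.Coprime p) (hw : w.Coprime p)
    (h : L p a z ≡ L p a w [MOD p ^ a]) (hzw : z ≡ w [MOD p]) : z ≡ w [MOD p ^ (a + 1)] :=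
  pow_inj hp hp2 a z w hw (L_ker hp hp2 a z w hz hw h) hzw

/-- at most `p - 1` numbers below `p ^ (a + 1)` with a given index -/
theorem L_count (hp : p.Prime) (hp2 : p ≠ 2) (a t : ℕ) :
    ((range (p ^ (a + 1))).filter (fun z => z.Coprime p ∧ L p a z ≡ t [MOD p ^ a])).card
      ≤ p - 1 := by
  have h1 : ((range (p ^ (a + 1))).filter
      (fun z => z.Coprime p ∧ L p a z ≡ t [MOD p ^ a])).card ≤ ((range p).erase 0).card := by
    apply card_le_card_of_injOn (fun z => z % p)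
    · intro z hz
      have hz' := hz
      simp only [coe_filter, mem_range, Set.mem_setOf_eq] at hz'
      simp only [coe_erase, Set.mem_diff, mem_coe, mem_range, Set.mem_singleton_iff]
      refine ⟨Nat.mod_lt _ hp.pos, ?_⟩
      intro h0
      have : p ∣ z := Nat.dvd_of_mod_eq_zero h0
      have h2 := Nat.Coprime.eq_one_of_dvd hz'.2.1.symm this
      exact hp.one_lt.ne' h2
    · intro z hz w hw hzw
      simp only [coe_filter, mem_range, Set.mem_setOf_eq] at hz hw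
      have h2 : z ≡ w [MOD p] := hzw
      have h3 := L_inj hp hp2 a z w hz.2.1 hw.2.1 (hz.2.2.trans hw.2.2.symm) h2
      exact Nat.ModEq.eq_of_lt_of_lt h3 hz.1 hw.1
  rwa [card_erase_of_mem (by simp [hp.pos]), card_range] at h1

/-- `(1 + p ^ b) ^ t = 1 + t p ^ b` modulo `p ^ (2 b)` -/
theorem lin_pow (q t : ℕ) : (1 + q) ^ t ≡ 1 + t * q [MOD q ^ 2] := by
  induction t with
  | zero => simp [Nat.ModEq]
  | succ t ih =>
    have h1 : (1 + q) ^ (t + 1) ≡ (1 + t * q) * (1 + q) [MOD q ^ 2] := by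
      rw [pow_succ]
      exact ih.mul_right _
    refine h1.trans ?_
    have h2 : (1 + t * q) * (1 + q) = 1 + (t + 1) * q + q ^ 2 * t := by ring
    rw [h2]
    have h3 : 1 + (t + 1) * q + q ^ 2 * t ≡ 1 + (t + 1) * q + 0 [MOD q ^ 2] := by
      apply Nat.ModEq.add_left
      exact (Nat.modEq_zero_iff_dvd).2 (dvd_mul_right _ _)
    simpa using h3

/-- the index of `1 + p ^ b` -/
theorem L_one_add (hp : p.Prime) (hp2 : p ≠ 2) (b : ℕ) (hb : 1 ≤ b) :
    ∃ u, u.Coprime p ∧ L p (2 * b - 1) (1 + p ^ b) = p ^ (b - 1) * u := by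
  have hc : (1 + p ^ b).Coprime p := by
    obtain ⟨c, rfl⟩ : ∃ c, b = c + 1 := ⟨b - 1, by omega⟩
    rw [pow_succ]
    simp
  have h1 : L p (b - 1) (1 + p ^ b) = 0 := by
    have h2 : L p (b - 1) (1 + p ^ b) = L p (b - 1) 1 := by
      apply L_per
      rw [show b - 1 + 1 = b by omega]
      simp [Nat.ModEq]
    rw [h2, L_one hp hp2]
  have h2 : L p (2 * b - 1) (1 + p ^ b) ≡ 0 [MOD p ^ (b - 1)] := by
    have := L_coh hp hp2 (b - 1) (2 * b - 1) (1 + p ^ b) (by omega) hc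
    rwa [h1] at this
  obtain ⟨u, hu⟩ := (Nat.modEq_zero_iff_dvd).1 h2
  refine ⟨u, ?_, hu⟩
  rw [Nat.coprime_comm, Nat.Prime.coprime_iff_not_dvd hp]
  rintro ⟨v, rfl⟩
  have h3 : L p b (1 + p ^ b) ≡ L p b 1 [MOD p ^ b] := by
    have h4 := L_coh hp hp2 b (2 * b - 1) (1 + p ^ b) (by omega) hc
    refine h4.symm.trans ?_
    rw [hu, L_one hp hp2, Nat.modEq_zero_iff_dvd]
    refine ⟨v, ?_⟩
    rw [← mul_assoc, ← pow_succ, show b - 1 + 1 = b by omega]
  have h5 := L_ker hp hp2 b _ _ hc (Nat.coprime_one_left p) h3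
  rw [one_pow] at h5
  have h6 : (1 + p ^ b) ^ (p - 1) ≡ 1 + (p - 1) * p ^ b [MOD p ^ (b + 1)] := by
    have := lin_pow (p ^ b) (p - 1)
    apply this.of_dvd
    rw [← pow_mul]
    exact pow_dvd_pow p (by omega)
  have h7 : 1 + (p - 1) * p ^ b ≡ 1 + 0 [MOD p ^ (b + 1)] := by
    simpa using h6.symm.trans h5
  have h8 : (p - 1) * p ^ b ≡ 0 [MOD p ^ (b + 1)] := Nat.ModEq.add_left_cancel' 1 h7
  have h9 : p ^ (b + 1) ∣ (p - 1) * p ^ b := (Nat.modEq_zero_iff_dvd).1 h8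
  rw [pow_succ, mul_comm (p ^ b) p] at h9
  have h10 : p ∣ p - 1 := Nat.dvd_of_mul_dvd_mul_right (pow_pos hp.pos b) h9
  have h11 := Nat.le_of_dvd (by have := hp.one_lt; omega) h10
  have := hp.pos
  omega

/-- **linearity** -/
theorem L_lin (hp : p.Prime) (hp2 : p ≠ 2) (b z : ℕ) (hb : 1 ≤ b) (hz : z.Coprime p) :
    ∃ β, β.Coprime p ∧ ∀ i a, a ≤ 2 * b - 1 →
      L p a (z + p ^ b * i) ≡ L p a z + p ^ (b - 1) * (β * i) [MOD p ^ a] := by
  obtain ⟨u, hu, hL⟩ := L_one_add hp hp2 b hb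
  obtain ⟨w, hw⟩ := ex_inv (p := p) (2 * b) z hz
  have hc : (1 + p ^ b).Coprime p := by
    obtain ⟨c, rfl⟩ : ∃ c, b = c + 1 := ⟨b - 1, by omega⟩
    rw [pow_succ]
    simp
  have hwc : w.Coprime p := by
    have h1 : z * w ≡ 1 [MOD p] := hw.of_dvd (dvd_pow_self p (by omega))
    rw [Nat.coprime_comm, Nat.Prime.coprime_iff_not_dvd hp]
    intro hd
    have h2 : z * w ≡ 0 [MOD p] := (Nat.modEq_zero_iff_dvd).2 (hd.mul_left z)
    have h3 : 1 ≡ 0 [MOD p] := h1.symm.trans h2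
    have h4 : p ∣ 1 := (Nat.modEq_zero_iff_dvd).1 h3
    exact hp.one_lt.ne' (Nat.dvd_one.1 h4)
  refine ⟨u * w, Nat.Coprime.mul_left hu hwc, ?_⟩
  intro i a ha
  have h1 : z + p ^ b * i ≡ z * (1 + p ^ b) ^ (i * w) [MOD p ^ (2 * b)] := by
    have h2 : z * (1 + p ^ b) ^ (i * w) ≡ z * (1 + (i * w) * p ^ b) [MOD p ^ (2 * b)] := by
      have := lin_pow (p ^ b) (i * w)
      rw [← pow_mul, mul_comm b 2] at this
      exact this.mul_left z
    have h3 : z * (1 + (i * w) * p ^ b) = z + (z * w) * (p ^ b * i) := by ring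
    rw [h3] at h2
    have h4 : z + (z * w) * (p ^ b * i) ≡ z + 1 * (p ^ b * i) [MOD p ^ (2 * b)] :=
      Nat.ModEq.add_left z (hw.mul_right _)
    rw [one_mul] at h4
    exact (h2.trans h4).symm
  have h5 : L p a (z + p ^ b * i) = L p a (z * (1 + p ^ b) ^ (i * w)) :=
    L_per a _ _ (h1.of_dvd (pow_dvd_pow p (by omega)))
  rw [h5]
  have h6 := L_mul hp hp2 a z ((1 + p ^ b) ^ (i * w)) hz (hc.pow_left _)
  refine h6.trans (Nat.ModEq.add_left _ ?_)
  refine (L_pow hp hp2 a _ (i * w) hc).trans ?_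
  have h7 : L p a (1 + p ^ b) ≡ p ^ (b - 1) * u [MOD p ^ a] := by
    rw [← hL]
    exact (L_coh hp hp2 a (2 * b - 1) _ ha hc).symm
  have h8 := h7.mul_left (i * w)
  have h9 : i * w * (p ^ (b - 1) * u) = p ^ (b - 1) * (u * w * i) := by ring
  rwa [h9] at h8

/-! ## Counting -/

/-- numbers below `X` with given index modulo `p ^ a` -/
theorem L_count_lt (hp : p.Prime) (hp2 : p ≠ 2) (a t X : ℕ) :
    ((range X).filter (fun z => z.Coprime p ∧ L p a z ≡ t [MOD p ^ a])).card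
      ≤ (p - 1) * (X / p ^ (a + 1) + 1) := by
  have hpos : 0 < p ^ (a + 1) := pow_pos hp.pos _
  set M := p ^ (a + 1) with hM
  have h1 : ((range X).filter (fun z => z.Coprime p ∧ L p a z ≡ t [MOD p ^ a])).card ≤
      (((range M).filter (fun z => z.Coprime p ∧ L p a z ≡ t [MOD p ^ a])) ×ˢ
        (range (X / M + 1))).card := by
    apply card_le_card_of_injOn (fun z => (z % M, z / M))
    · intro z hz
      simp only [coe_filter, mem_range, Set.mem_setOf_eq] at hz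
      simp only [coe_product, coe_filter, mem_range, coe_range, Set.mem_prod, Set.mem_setOf_eq,
        Set.mem_Iio]
      refine ⟨⟨Nat.mod_lt _ hpos, ?_, ?_⟩, ?_⟩
      · have h2 : (z % M) % p = z % p := Nat.mod_mod_of_dvd _ (dvd_pow_self p (Nat.succ_ne_zero a))
        have h3 : Nat.gcd p (z % M) = Nat.gcd p z := by
          rw [Nat.gcd_rec p (z % M), h2, ← Nat.gcd_rec]
        rw [Nat.coprime_comm]
        unfold Nat.Coprime
        rw [h3]
        exact hz.2.1.symm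
      · have h2 : L p a (z % M) = L p a z := L_per a _ _ (by rw [hM]; exact Nat.mod_modEq _ _)
        rw [h2]
        exact hz.2.2
      · exact Nat.lt_succ_of_le (Nat.div_le_div_right hz.1.le)
    · intro z _ w _ h
      simp only [Prod.mk.injEq] at h
      rw [← Nat.div_add_mod z M, ← Nat.div_add_mod w M, h.1, h.2]
  rw [card_product, card_range] at h1
  exact h1.trans (Nat.mul_le_mul_right _ (L_count hp hp2 a t))

/-- **the Sidon property**: primes `x, y` (not `p`) with `x y < p ^ (a + 1)` and given sum of the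
indices -/
theorem sidon (hp : p.Prime) (hp2 : p ≠ 2) (a t : ℕ) (S : Finset (ℕ × ℕ))
    (hS : ∀ q ∈ S, q.1.Prime ∧ q.2.Prime ∧ q.1 ≠ p ∧ q.2 ≠ p ∧ q.1 * q.2 < p ^ (a + 1) ∧
      L p a q.1 + L p a q.2 ≡ t [MOD p ^ a]) :
    S.card ≤ 2 * (p - 1) := by
  have hcop : ∀ x : ℕ, x.Prime → x ≠ p → x.Coprime p := fun x hx hxp =>
    (Nat.coprime_primes hx hp).2 hxp
  set T := (range (p ^ (a + 1))).filter (fun z => z.Coprime p ∧ L p a z ≡ t [MOD p ^ a]) with hT
  have hmap : ∀ q ∈ S, q.1 * q.2 ∈ T := by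
    intro q hq
    obtain ⟨h1, h2, h3, h4, h5, h6⟩ := hS q hq
    rw [hT, mem_filter, mem_range]
    refine ⟨h5, Nat.Coprime.mul_left (hcop _ h1 h3) (hcop _ h2 h4), ?_⟩
    exact (L_mul hp hp2 a _ _ (hcop _ h1 h3) (hcop _ h2 h4)).trans h6
  have hfib : ∀ m ∈ T, (S.filter (fun q => q.1 * q.2 = m)).card ≤ 2 := by
    intro m _
    rcases (S.filter (fun q => q.1 * q.2 = m)).eq_empty_or_nonempty with h0 | ⟨r, hr⟩
    · rw [h0]; simp
    rw [mem_filter] at hr
    have hsub : S.filter (fun q => q.1 * q.2 = m) ⊆ {(r.1, r.2), (r.2, r.1)} := by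
      intro q hq
      rw [mem_filter] at hq
      obtain ⟨h1, h2, -, -, -, -⟩ := hS q hq.1
      obtain ⟨g1, g2, -, -, -, -⟩ := hS r hr.1
      have he : q.1 * q.2 = r.1 * r.2 := hq.2.trans hr.2.symm
      have hd : q.1 ∣ r.1 * r.2 := ⟨q.2, he.symm⟩
      rw [mem_insert, mem_singleton]
      rcases (Nat.Prime.dvd_mul h1).1 hd with h | h
      · left
        have h5 := (Nat.prime_dvd_prime_iff_eq h1 g1).1 h
        rw [h5] at he
        have h6 := Nat.eq_of_mul_eq_mul_left g1.pos he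
        exact Prod.ext h5 h6
      · right
        have h5 := (Nat.prime_dvd_prime_iff_eq h1 g2).1 h
        rw [h5, mul_comm r.1 r.2] at he
        have h6 := Nat.eq_of_mul_eq_mul_left g2.pos he
        exact Prod.ext h5 h6
    exact (card_le_card hsub).trans (card_le_two)
  have h := card_le_mul_card_image_of_maps_to (s := S) (t := T) (f := fun q => q.1 * q.2) hmap 2 hfib
  have h2 := L_count hp hp2 a t
  calc S.card ≤ 2 * T.card := h
    _ ≤ 2 * (p - 1) := Nat.mul_le_mul_left _ h2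

end

end Pool.Agent.Helper11.T4
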