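import Mathlib

/-!
# T4 (MP_12a1af_nt): the label lemma (helper48)

Sets `A K` in `[2 ^ (K - 1), 2 ^ K)` with few representations for every single pair `(K, K')`
give one set with few representations: a residue class modulo `2 * 4 ^ (log K)` (an Elias code
of `K`) is attached to every `K`.
-/

set_option autoImplicit false

open Finset

namespace Pool.Agent.Helper11.T4

/-- modulus of the label -/
def lm (K : ℕ) : ℕ := 2 ^ (2 * Nat.log 2 K + 1)

/-- the label -/
def lc (K : ℕ) : ℕ := 2 ^ Nat.log 2 K * (1 + 2 * (K - 2 ^ Nat.log 2 K))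

theorem lm_pos (K : ℕ) : 0 < lm K := pow_pos (by norm_num) _

theorem lm_le {K : ℕ} (hK : 1 ≤ K) : lm K ≤ 2 * K ^ 2 := by
  have h : 2 ^ Nat.log 2 K ≤ K := Nat.pow_log_le_self 2 (by omega)
  unfold lm
  rw [pow_succ, mul_comm 2 (Nat.log 2 K), pow_mul, mul_comm]
  exact Nat.mul_le_mul_left 2 (Nat.pow_le_pow_left h 2)

theorem lm_dvd {K K' : ℕ} (h : K' ≤ K) : lm K' ∣ lm K := by
  unfold lm
  apply pow_dvd_pow
  have := Nat.log_mono_right (b := 2) h
  omega

theorem lc_lt {K : ℕ} (hK : 1 ≤ K) : lc K < lm K := by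
  have h1 : 2 ^ Nat.log 2 K ≤ K := Nat.pow_log_le_self 2 (by omega)
  have h2 : K < 2 ^ (Nat.log 2 K + 1) := Nat.lt_pow_succ_log_self (by norm_num) K
  unfold lc lm
  have e : 2 ^ (2 * Nat.log 2 K + 1) = 2 ^ Nat.log 2 K * (2 * 2 ^ Nat.log 2 K) := by
    rw [pow_succ, two_mul, pow_add]; ring
  rw [e]
  apply Nat.mul_lt_mul_of_pos_left _ (pow_pos (by norm_num) _)
  rw [pow_succ] at h2
  omega

/-- the label classes are disjoint -/
theorem label_disj {K K' z : ℕ} (hK : 1 ≤ K) (hK' : 1 ≤ K') (h : z ≡ lc K [MOD lm K])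
    (h' : z ≡ lc K' [MOD lm K']) : K = K' := by
  wlog hL : Nat.log 2 K ≤ Nat.log 2 K' generalizing K K'
  · exact (this hK' hK h' h (by omega)).symm
  rcases hL.lt_or_eq with hlt | heq
  · exfalso
    have d1 : 2 ^ (Nat.log 2 K + 1) ∣ lm K' := by
      unfold lm; exact pow_dvd_pow _ (by omega)
    have d2 : 2 ^ (Nat.log 2 K + 1) ∣ lc K' := by
      unfold lc; exact Dvd.dvd.mul_right (pow_dvd_pow _ (by omega)) _
    have d3 : 2 ^ (Nat.log 2 K + 1) ∣ lm K := by
      unfold lm; exact pow_dvd_pow _ (by omega)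
    have z0 : z ≡ 0 [MOD 2 ^ (Nat.log 2 K + 1)] :=
      (h'.of_dvd d1).trans ((Nat.modEq_zero_iff_dvd).2 d2)
    have z1 : lc K ≡ 0 [MOD 2 ^ (Nat.log 2 K + 1)] := (h.of_dvd d3).symm.trans z0
    have z2 := (Nat.modEq_zero_iff_dvd).1 z1
    unfold lc at z2
    rw [pow_succ] at z2
    have z3 := Nat.dvd_of_mul_dvd_mul_left (pow_pos (by norm_num) _) z2
    omega
  · have hm : lm K = lm K' := by unfold lm; rw [heq]
    rw [← hm] at h'
    have h1 : lc K ≡ lc K' [MOD lm K] := h.symm.trans h'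
    have h2 : lc K = lc K' :=
      Nat.ModEq.eq_of_lt_of_lt h1 (lc_lt hK) (by rw [hm]; exact lc_lt hK')
    unfold lc at h2
    rw [heq] at h2
    have h3 := Nat.eq_of_mul_eq_mul_left (pow_pos (by norm_num) _) h2
    have h4 : 2 ^ Nat.log 2 K' ≤ K := by
      rw [← heq]; exact Nat.pow_log_le_self 2 (by omega)
    have h5 : 2 ^ Nat.log 2 K' ≤ K' := Nat.pow_log_le_self 2 (by omega)
    omega

/-- pigeonhole: a residue class with many elements -/
theorem exists_class (S : Finset ℕ) (M : ℕ) (hM : 0 < M) :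
    ∃ ρ, ρ < M ∧ S.card ≤ M * (S.filter (fun a => a % M = ρ)).card := by
  by_contra hcon
  push Not at hcon
  have h1 : S.card = ∑ ρ ∈ range M, (S.filter (fun a => a % M = ρ)).card :=
    card_eq_sum_card_fiberwise (fun a _ => by simpa using Nat.mod_lt a hM)
  have h2 : ∑ ρ ∈ range M, M * (S.filter (fun a => a % M = ρ)).card <
      ∑ ρ ∈ range M, S.card := by
    apply sum_lt_sum_of_nonempty ⟨0, by simpa using hM⟩
    intro ρ hρ
    exact hcon ρ (by simpa using hρ)
  rw [← mul_sum, ← h1, sum_const, card_range, smul_eq_mul] at h2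
  exact lt_irrefl _ h2

/-- translate of a set into the label class -/
theorem exists_label (S : Finset ℕ) (K : ℕ) (hK : 1 ≤ K) :
    ∃ (T : Finset ℕ) (t : ℕ), T ⊆ S ∧ t < lm K ∧ S.card ≤ lm K * T.card ∧
      ∀ a ∈ T, a + t ≡ lc K [MOD lm K] := by
  obtain ⟨ρ, hρ, hc⟩ := exists_class S (lm K) (lm_pos K)
  refine ⟨S.filter (fun a => a % lm K = ρ), (lc K + lm K - ρ) % lm K, filter_subset _ _,
    Nat.mod_lt _ (lm_pos K), hc, ?_⟩
  intro a ha
  rw [mem_filter] at ha
  have h1 : a ≡ ρ [MOD lm K] := by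
    unfold Nat.ModEq
    rw [ha.2, Nat.mod_eq_of_lt hρ]
  have h2 : (lc K + lm K - ρ) % lm K ≡ lc K + lm K - ρ [MOD lm K] := Nat.mod_modEq _ _
  refine (h1.add h2).trans ?_
  rw [show ρ + (lc K + lm K - ρ) = lc K + lm K by omega]
  simp [Nat.ModEq]

section Main

variable {A : ℕ → Finset ℕ} {K0 : ℕ}

/-- **the label lemma** -/
theorem label (hK0 : 7 ≤ K0) {R : ℕ → ℝ} (hR : Monotone R) (hR0 : ∀ K, 0 ≤ R K)
    (h1 : ∀ K, K0 ≤ K → ∀ a ∈ A K, 2 ^ (K - 1) ≤ a ∧ a < 2 ^ K)
    (h3 : ∀ K K', K0 ≤ K' → K' ≤ K → ∀ n : ℕ,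
      (((A K ×ˢ A K').filter (fun q => q.1 + q.2 = n)).card : ℝ) ≤ R K) :
    ∃ B : Set ℕ,
      (∀ n : ℕ, ({q : ℕ × ℕ | q.1 ∈ B ∧ q.2 ∈ B ∧ q.1 + q.2 = n}.ncard : ℝ) ≤
        6 * R (Nat.log 2 n + 1)) ∧
      ∀ K, K0 ≤ K → ∀ x, 2 ^ (K + 1) ≤ x →
        (A K).card ≤ 2 * K ^ 2 * (B ∩ Set.Iio x).ncard := by
  classical
  have hlab : ∀ K, ∃ (T : Finset ℕ) (t : ℕ), K0 ≤ K → (T ⊆ A K ∧ t < lm K ∧
      (A K).card ≤ lm K * T.card ∧ ∀ a ∈ T, a + t ≡ lc K [MOD lm K]) := by
    intro K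
    by_cases hK : K0 ≤ K
    · obtain ⟨T, t, h⟩ := exists_label (A K) K (by omega)
      exact ⟨T, t, fun _ => h⟩
    · exact ⟨∅, 0, fun h => absurd h hK⟩
  choose T t hT using hlab
  have hsmall : ∀ K, K0 ≤ K → lm K ≤ 2 ^ K := by
    intro K hK
    have h2 : lm K ≤ 2 * K ^ 2 := lm_le (by omega)
    refine h2.trans ?_
    have h7 : 7 ≤ K := hK0.trans hK
    clear h2 hK
    induction K, h7 using Nat.le_induction with
    | base => norm_num
    | succ K hK ih =>
      rw [pow_succ 2 K]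
      nlinarith
  set D : ℕ → Finset ℕ := fun K => (T K).image (fun a => a + t K) with hD
  have hDmem : ∀ K, K0 ≤ K → ∀ b ∈ D K, 2 ^ (K - 1) ≤ b ∧ b < 2 ^ (K + 1) ∧
      b ≡ lc K [MOD lm K] := by
    intro K hK b hb
    rw [hD, mem_image] at hb
    obtain ⟨a, ha, rfl⟩ := hb
    obtain ⟨g1, g2, g3, g4⟩ := hT K hK
    obtain ⟨f1, f2⟩ := h1 K hK a (g1 ha)
    have f3 := hsmall K hK
    refine ⟨by omega, ?_, g4 a ha⟩
    rw [pow_succ]
    omega
  set B : Set ℕ := {b | ∃ K, K0 ≤ K ∧ b ∈ D K} with hB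
  refine ⟨B, ?_, ?_⟩
  · intro n
    set l := Nat.log 2 n with hl
    -- pairs for given indices
    set P : ℕ → ℕ → Finset (ℕ × ℕ) := fun K K' => (D K ×ˢ D K').filter (fun q => q.1 + q.2 = n)
      with hP
    have hPc : ∀ K K', K0 ≤ K' → K' ≤ K → ((P K K').card : ℝ) ≤ R K := by
      intro K K' hK' hKK
      have hle : (P K K').card ≤
          ((A K ×ˢ A K').filter (fun q => q.1 + q.2 = n - t K - t K')).card := by
        apply card_le_card_of_injOn (fun q => (q.1 - t K, q.2 - t K'))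
        · intro q hq
          simp only [hP, coe_filter, mem_product, Set.mem_setOf_eq] at hq
          obtain ⟨⟨q1, q2⟩, q3⟩ := hq
          simp only [hD, mem_image] at q1 q2
          obtain ⟨a, ha, ha2⟩ := q1
          obtain ⟨a', ha', ha2'⟩ := q2
          simp only [coe_filter, mem_product, Set.mem_setOf_eq]
          have g := (hT K (hK'.trans hKK)).1 ha
          have g' := (hT K' hK').1 ha'
          refine ⟨⟨?_, ?_⟩, ?_⟩
          · rw [← ha2, Nat.add_sub_cancel]; exact g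
          · rw [← ha2', Nat.add_sub_cancel]; exact g'
          · omega
        · intro q hq r hr hqr
          simp only [hP, coe_filter, mem_product, Set.mem_setOf_eq] at hq hr
          obtain ⟨⟨q1, q2⟩, q3⟩ := hq
          obtain ⟨⟨r1, r2⟩, r3⟩ := hr
          simp only [hD, mem_image] at q1 q2 r1 r2
          obtain ⟨a, -, ha2⟩ := q1
          obtain ⟨a', -, ha2'⟩ := q2
          obtain ⟨b, -, hb2⟩ := r1
          obtain ⟨b', -, hb2'⟩ := r2
          simp only [Prod.mk.injEq] at hqr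
          apply Prod.ext
          · omega
          · omega
      calc ((P K K').card : ℝ) ≤ _ := by exact_mod_cast hle
        _ ≤ R K := h3 K K' hK' hKK _
    -- for given `K` one `K'`
    have huniq : ∀ K K' K'', K0 ≤ K' → K' ≤ K → K0 ≤ K'' → K'' ≤ K → (P K K').Nonempty →
        (P K K'').Nonempty → K' = K'' := by
      intro K K' K'' hK' hKK' hK'' hKK'' ⟨q, hq⟩ ⟨r, hr⟩
      simp only [hP, mem_filter, mem_product] at hq hr
      obtain ⟨-, -, c1⟩ := hDmem K (hK'.trans hKK') _ hq.1.1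
      obtain ⟨-, -, c2⟩ := hDmem K' hK' _ hq.1.2
      obtain ⟨-, -, c3⟩ := hDmem K (hK'.trans hKK') _ hr.1.1
      obtain ⟨-, -, c4⟩ := hDmem K'' hK'' _ hr.1.2
      have e1 : q.2 ≡ r.2 [MOD lm K] := by
        have e2 : q.1 ≡ r.1 [MOD lm K] := c1.trans c3.symm
        have e3 : q.1 + q.2 ≡ r.1 + r.2 [MOD lm K] := by rw [hq.2, hr.2]
        exact Nat.ModEq.add_left_cancel e2 e3
      apply label_disj (z := r.2) (by omega) (by omega) _ c4
      exact (e1.of_dvd (lm_dvd hKK')).symm.trans c2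
    -- the pairs with larger first index
    set Q : ℕ → Finset (ℕ × ℕ) := fun K => (Finset.Icc K0 K).biUnion (fun K' => P K K') with hQ
    have hQc : ∀ K, ((Q K).card : ℝ) ≤ R K := by
      intro K
      by_cases hne : ∃ K', K' ∈ Finset.Icc K0 K ∧ (P K K').Nonempty
      · obtain ⟨K', hK', hne'⟩ := hne
        rw [mem_Icc] at hK'
        have hsub : Q K ⊆ P K K' := by
          intro q hq
          rw [hQ, mem_biUnion] at hq
          obtain ⟨K'', hK'', hq2⟩ := hq
          rw [mem_Icc] at hK''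
          have := huniq K K' K'' hK'.1 hK'.2 hK''.1 hK''.2 hne' ⟨q, hq2⟩
          rw [this]; exact hq2
        calc ((Q K).card : ℝ) ≤ ((P K K').card : ℝ) := by exact_mod_cast card_le_card hsub
          _ ≤ R K := hPc K K' hK'.1 hK'.2
      · push Not at hne
        have : Q K = ∅ := by
          rw [hQ]
          rw [eq_empty_iff_forall_notMem]
          intro q hq
          rw [mem_biUnion] at hq
          obtain ⟨K', hK', hq2⟩ := hq
          have h5 := hne K' hK'
          simp [h5] at hq2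
        rw [this]
        simpa using hR0 K
    set W : Finset (ℕ × ℕ) := (Finset.Icc (l - 1) (l + 1)).biUnion Q with hW
    have hWc : (W.card : ℝ) ≤ 3 * R (l + 1) := by
      have hc1 : W.card ≤ ∑ K ∈ Finset.Icc (l - 1) (l + 1), (Q K).card := card_biUnion_le
      have hc2 : ((∑ K ∈ Finset.Icc (l - 1) (l + 1), (Q K).card : ℕ) : ℝ) ≤
          ∑ K ∈ Finset.Icc (l - 1) (l + 1), R (l + 1) := by
        push_cast
        apply sum_le_sum
        intro K hK
        rw [mem_Icc] at hK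
        exact (hQc K).trans (hR hK.2)
      rw [sum_const, nsmul_eq_mul] at hc2
      have hc3 : ((Finset.Icc (l - 1) (l + 1)).card : ℝ) ≤ 3 := by
        rw [Nat.card_Icc]
        have : l + 1 + 1 - (l - 1) ≤ 3 := by omega
        exact_mod_cast this
      calc (W.card : ℝ) ≤ _ := by exact_mod_cast hc1
        _ ≤ _ := hc2
        _ ≤ 3 * R (l + 1) := mul_le_mul_of_nonneg_right hc3 (hR0 _)
    have hcov : {q : ℕ × ℕ | q.1 ∈ B ∧ q.2 ∈ B ∧ q.1 + q.2 = n} ⊆
        ((W ∪ W.image Prod.swap : Finset (ℕ × ℕ)) : Set (ℕ × ℕ)) := by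
      have key : ∀ q : ℕ × ℕ, ∀ K K', K0 ≤ K' → K' ≤ K → q.1 ∈ D K → q.2 ∈ D K' →
          q.1 + q.2 = n → q ∈ W := by
        intro q K K' hK' hKK hq1 hq2 hq
        rw [hW, mem_biUnion]
        obtain ⟨a1, a2, -⟩ := hDmem K (hK'.trans hKK) _ hq1
        obtain ⟨b1, b2, -⟩ := hDmem K' hK' _ hq2
        have hn0 : n ≠ 0 := by
          have : 0 < 2 ^ (K - 1) := pow_pos (by norm_num) _
          omega
        refine ⟨K, ?_, ?_⟩
        · rw [mem_Icc]
          have u1 : 2 ^ (K - 1) ≤ n := by omega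
          have u2 : K - 1 ≤ l := by
            rw [hl]; exact Nat.le_log_of_pow_le (by norm_num) u1
          have u3 : n < 2 ^ (K + 2) := by
            have : 2 ^ (K' + 1) ≤ 2 ^ (K + 1) := Nat.pow_le_pow_right (by norm_num) (by omega)
            have e : 2 ^ (K + 2) = 2 ^ (K + 1) + 2 ^ (K + 1) := by rw [pow_succ]; ring
            omega
          have u4 : l < K + 2 := by
            rw [hl]; exact Nat.log_lt_of_lt_pow hn0 u3
          omega
        · rw [hQ, mem_biUnion]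
          refine ⟨K', by rw [mem_Icc]; exact ⟨hK', hKK⟩, ?_⟩
          rw [hP, mem_filter, mem_product]
          exact ⟨⟨hq1, hq2⟩, hq⟩
      rintro q ⟨⟨K, hK, hq1⟩, ⟨K', hK', hq2⟩, hq⟩
      rw [coe_union, Set.mem_union, mem_coe, mem_coe]
      rcases le_total K' K with h | h
      · left; exact key q K K' hK' h hq1 hq2 hq
      · right
        rw [mem_image]
        exact ⟨q.swap, key q.swap K' K hK h hq2 hq1 (by simpa [add_comm] using hq), by simp⟩
    have hfin : ((({q : ℕ × ℕ | q.1 ∈ B ∧ q.2 ∈ B ∧ q.1 + q.2 = n}).ncard : ℕ) : ℝ) ≤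
        ((W ∪ W.image Prod.swap).card : ℝ) := by
      have := Set.ncard_le_ncard hcov (finite_toSet _)
      rw [Set.ncard_coe_finset] at this
      exact_mod_cast this
    refine hfin.trans ?_
    have h6 : ((W ∪ W.image Prod.swap).card : ℝ) ≤ (W.card : ℝ) + W.card := by
      have h7 : (W ∪ W.image Prod.swap).card ≤ W.card + W.card :=
        (card_union_le _ _).trans (Nat.add_le_add_left card_image_le _)
      exact_mod_cast h7
    linarith
  · intro K hK x hx
    obtain ⟨g1, g2, g3, g4⟩ := hT K hK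
    have hsub : ((D K : Finset ℕ) : Set ℕ) ⊆ B ∩ Set.Iio x := by
      intro b hb
      have := hDmem K hK b hb
      exact ⟨⟨K, hK, hb⟩, by rw [Set.mem_Iio]; omega⟩
    have hfin : (B ∩ Set.Iio x).Finite := (Set.finite_Iio x).subset Set.inter_subset_right
    have hc := Set.ncard_le_ncard hsub hfin
    rw [Set.ncard_coe_finset] at hc
    have hDc : (D K).card = (T K).card := by
      rw [hD]
      exact card_image_of_injective _ (add_left_injective (t K))
    calc (A K).card ≤ lm K * (T K).card := g3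
      _ ≤ (2 * K ^ 2) * (B ∩ Set.Iio x).ncard := by
        rw [← hDc]
        exact Nat.mul_le_mul (lm_le (by omega)) hc

/-- **the label lemma**, final form -/
theorem label_final (hK0 : 7 ≤ K0) (c : ℕ) (C C₁ : ℝ) (hC : 0 < C) (hC₁ : 0 < C₁)
    (h1 : ∀ K, K0 ≤ K → ∀ a ∈ A K, 2 ^ (K - 1) ≤ a ∧ a < 2 ^ K)
    (h2 : ∀ K, K0 ≤ K → √(2 ^ K : ℝ) ≤ C * (K : ℝ) ^ c * (A K).card)
    (h3 : ∀ K K', K0 ≤ K' → K' ≤ K → ∀ n : ℕ,
      (((A K ×ˢ A K').filter (fun q => q.1 + q.2 = n)).card : ℝ) ≤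
        C₁ * √((K : ℝ) / Real.log K)) :
    ∃ (B : Set ℕ) (C' : ℝ), 0 < C' ∧
      (∀ᶠ n : ℕ in Filter.atTop,
        ({q : ℕ × ℕ | q.1 ∈ B ∧ q.2 ∈ B ∧ q.1 + q.2 = n}.ncard : ℝ) ≤
          C' * √(Real.log n / Real.log (Real.log n))) ∧
      ∀ᶠ x : ℕ in Filter.atTop,
        √(x : ℝ) ≤ C' * Real.log x ^ (c + 2) * ((B ∩ Set.Iio x).ncard : ℝ) := by
  -- a monotone bound
  set F : ℕ → ℝ := fun K => ((max K 7 : ℕ) : ℝ) / Real.log ((max K 7 : ℕ) : ℝ) with hF
  have hexp : Real.exp 1 ≤ 7 := by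
    have := Real.exp_one_lt_d9
    linarith
  have hmono : ∀ x y : ℝ, 7 ≤ x → x ≤ y → x / Real.log x ≤ y / Real.log y := by
    intro x y hx hxy
    have hlx : 0 < Real.log x := Real.log_pos (by linarith)
    have hly : 0 < Real.log y := Real.log_pos (by linarith)
    have h := Real.log_div_self_antitoneOn (show x ∈ {x | Real.exp 1 ≤ x} by
      simp only [Set.mem_setOf_eq]; linarith) (show y ∈ {x | Real.exp 1 ≤ x} by
      simp only [Set.mem_setOf_eq]; linarith) hxy
    simp only at h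
    rw [div_le_div_iff₀ (by linarith) (by linarith)] at h
    rw [div_le_div_iff₀ hlx hly]
    linarith
  have hFmono : Monotone F := by
    intro K K' h
    apply hmono
    · exact_mod_cast le_max_right K 7
    · exact_mod_cast max_le_max h le_rfl
  have hF0 : ∀ K, 0 ≤ F K := by
    intro K
    have h7 : (7 : ℝ) ≤ ((max K 7 : ℕ) : ℝ) := by exact_mod_cast le_max_right K 7
    exact div_nonneg (by linarith) (Real.log_nonneg (by linarith))
  set R : ℕ → ℝ := fun K => C₁ * √(F K) with hR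
  have hRmono : Monotone R := by
    intro K K' h
    exact mul_le_mul_of_nonneg_left (Real.sqrt_le_sqrt (hFmono h)) hC₁.le
  have hR0 : ∀ K, 0 ≤ R K := fun K => mul_nonneg hC₁.le (Real.sqrt_nonneg _)
  have h3' : ∀ K K', K0 ≤ K' → K' ≤ K → ∀ n : ℕ,
      (((A K ×ˢ A K').filter (fun q => q.1 + q.2 = n)).card : ℝ) ≤ R K := by
    intro K K' hK' hKK n
    have h := h3 K K' hK' hKK n
    have e : max K 7 = K := max_eq_left (by omega)
    rw [hR, hF]
    simp only [e]
    exact h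
  obtain ⟨B, hB1, hB2⟩ := label hK0 hRmono hR0 h1 h3'
  refine ⟨B, 9 * C₁ + 4 * C * 2 ^ (c + 2), by positivity, ?_, ?_⟩
  · have ev : ∀ᶠ n : ℕ in Filter.atTop, 100 ≤ Real.log (n : ℝ) :=
      (Real.tendsto_log_atTop.comp tendsto_natCast_atTop_atTop).eventually_ge_atTop 100
    filter_upwards [ev] with n hn
    refine (hB1 n).trans ?_
    have hlog2 : (0.69 : ℝ) < Real.log 2 := by linarith [Real.log_two_gt_d9]
    have hn1 : (1 : ℝ) < n := by
      by_contra hcon
      push Not at hcon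
      have := Real.log_nonpos (Nat.cast_nonneg n) hcon
      linarith
    have hn0 : n ≠ 0 := by rintro rfl; norm_num at hn1
    have hl1 : ((Nat.log 2 n : ℕ) : ℝ) * Real.log 2 ≤ Real.log n := by
      have h2 : 2 ^ Nat.log 2 n ≤ n := Nat.pow_log_le_self 2 hn0
      have h4 : ((2 : ℝ) ^ Nat.log 2 n) ≤ n := by exact_mod_cast h2
      have h5 := Real.log_le_log (by positivity) h4
      rwa [Real.log_pow] at h5
    have hLle : (((max (Nat.log 2 n + 1) 7 : ℕ)) : ℝ) ≤ 2 * Real.log n := by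
      rw [Nat.cast_max]
      apply max_le
      · push_cast
        nlinarith
      · push_cast
        linarith
    have hFle : F (Nat.log 2 n + 1) ≤ 2 * (Real.log n / Real.log (Real.log n)) := by
      have h7 : (7 : ℝ) ≤ ((max (Nat.log 2 n + 1) 7 : ℕ) : ℝ) := by
        exact_mod_cast le_max_right _ 7
      have h8 := hmono _ _ h7 hLle
      have h9 : 0 < Real.log (Real.log n) := Real.log_pos (by linarith)
      have h10 : Real.log (Real.log n) ≤ Real.log (2 * Real.log n) :=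
        Real.log_le_log (by linarith) (by linarith)
      calc F (Nat.log 2 n + 1) ≤ 2 * Real.log n / Real.log (2 * Real.log n) := h8
        _ ≤ 2 * Real.log n / Real.log (Real.log n) :=
          div_le_div_of_nonneg_left (by linarith) h9 h10
        _ = _ := by ring
    have hsq : √(F (Nat.log 2 n + 1)) ≤ 1.5 * √(Real.log n / Real.log (Real.log n)) := by
      rw [show (1.5 : ℝ) = √(1.5 ^ 2) by rw [Real.sqrt_sq (by norm_num)], ← Real.sqrt_mul (by norm_num)]
      apply Real.sqrt_le_sqrt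
      have h9 : 0 < Real.log (Real.log n) := Real.log_pos (by linarith)
      have h10 : 0 ≤ Real.log n / Real.log (Real.log n) := div_nonneg (by linarith) h9.le
      linarith
    have hs0 : 0 ≤ √(Real.log n / Real.log (Real.log n)) := Real.sqrt_nonneg _
    calc 6 * R (Nat.log 2 n + 1) = 6 * C₁ * √(F (Nat.log 2 n + 1)) := by rw [hR]; ring
      _ ≤ 6 * C₁ * (1.5 * √(Real.log n / Real.log (Real.log n))) :=
        mul_le_mul_of_nonneg_left hsq (by positivity)
      _ = 9 * C₁ * √(Real.log n / Real.log (Real.log n)) := by ring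
      _ ≤ (9 * C₁ + 4 * C * 2 ^ (c + 2)) * √(Real.log n / Real.log (Real.log n)) := by
        apply mul_le_mul_of_nonneg_right _ hs0
        have : 0 ≤ 4 * C * 2 ^ (c + 2) := by positivity
        linarith
  · have ev : ∀ᶠ x : ℕ in Filter.atTop, 2 ^ (K0 + 10) ≤ x := Filter.eventually_ge_atTop _
    filter_upwards [ev] with x hx
    have hx0 : x ≠ 0 := by
      rintro rfl
      have : 0 < 2 ^ (K0 + 10) := pow_pos (by norm_num) _
      omega
    set l := Nat.log 2 x with hl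
    have hl1 : K0 + 10 ≤ l := by rw [hl]; exact Nat.le_log_of_pow_le (by norm_num) hx
    have hl2 : 2 ^ l ≤ x := Nat.pow_log_le_self 2 hx0
    have hl3 : x < 2 ^ (l + 1) := Nat.lt_pow_succ_log_self (by norm_num) x
    have hK : K0 ≤ l - 1 := by omega
    have hcard := hB2 (l - 1) hK x (by rw [show l - 1 + 1 = l by omega]; exact hl2)
    have hA := h2 (l - 1) hK
    have hlog2 : (0.69 : ℝ) < Real.log 2 := by linarith [Real.log_two_gt_d9]
    have hlx : (l : ℝ) * Real.log 2 ≤ Real.log x := by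
      have h4 : ((2 : ℝ) ^ l) ≤ x := by exact_mod_cast hl2
      have h5 := Real.log_le_log (by positivity) h4
      rwa [Real.log_pow] at h5
    have hKlog : (((l - 1 : ℕ)) : ℝ) ≤ 2 * Real.log x := by
      have h5 : (((l - 1 : ℕ)) : ℝ) ≤ l := by exact_mod_cast Nat.sub_le l 1
      have h6 : (0 : ℝ) ≤ l := Nat.cast_nonneg l
      nlinarith
    have hsx : √(x : ℝ) ≤ 2 * √((2 : ℝ) ^ (l - 1)) := by
      have h5 : (x : ℝ) ≤ 2 ^ 2 * (2 : ℝ) ^ (l - 1) := by
        have : x ≤ 2 ^ 2 * 2 ^ (l - 1) := by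
          rw [← pow_add, show 2 + (l - 1) = l + 1 by omega]
          exact hl3.le
        exact_mod_cast this
      calc √(x : ℝ) ≤ √(2 ^ 2 * (2 : ℝ) ^ (l - 1)) := Real.sqrt_le_sqrt h5
        _ = 2 * √((2 : ℝ) ^ (l - 1)) := by
          rw [Real.sqrt_mul (by norm_num), Real.sqrt_sq (by norm_num)]
    set q : ℝ := ((B ∩ Set.Iio x).ncard : ℝ) with hq
    have hq0 : 0 ≤ q := Nat.cast_nonneg _
    have hcard' : ((A (l - 1)).card : ℝ) ≤ 2 * (((l - 1 : ℕ)) : ℝ) ^ 2 * q := by
      rw [hq]; exact_mod_cast hcard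
    have hk0 : (0 : ℝ) ≤ (((l - 1 : ℕ)) : ℝ) := Nat.cast_nonneg _
    have hlx0 : 0 ≤ Real.log x := by
      have h6 : (0 : ℝ) ≤ l := Nat.cast_nonneg l
      nlinarith
    calc √(x : ℝ) ≤ 2 * √((2 : ℝ) ^ (l - 1)) := hsx
      _ ≤ 2 * (C * (((l - 1 : ℕ)) : ℝ) ^ c * (A (l - 1)).card) := by linarith
      _ ≤ 2 * (C * (((l - 1 : ℕ)) : ℝ) ^ c * (2 * (((l - 1 : ℕ)) : ℝ) ^ 2 * q)) := by
        apply mul_le_mul_of_nonneg_left _ (by norm_num)
        exact mul_le_mul_of_nonneg_left hcard' (by positivity)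
      _ = 4 * C * (((l - 1 : ℕ)) : ℝ) ^ (c + 2) * q := by ring
      _ ≤ 4 * C * (2 * Real.log x) ^ (c + 2) * q := by
        apply mul_le_mul_of_nonneg_right _ hq0
        exact mul_le_mul_of_nonneg_left (pow_le_pow_left₀ hk0 hKlog _) (by positivity)
      _ = (4 * C * 2 ^ (c + 2)) * Real.log x ^ (c + 2) * q := by rw [mul_pow]; ring
      _ ≤ (9 * C₁ + 4 * C * 2 ^ (c + 2)) * Real.log x ^ (c + 2) * q := by
        apply mul_le_mul_of_nonneg_right _ hq0
        apply mul_le_mul_of_nonneg_right _ (pow_nonneg hlx0 _)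
        linarith

end Main

end Pool.Agent.Helper11.T4
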