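import Pool.Agent.Helper11.T4.Step
import Pool.Agent.Helper72.T4.NearOrd
import Pool.Agent.Helper27.T4.Phase

/-!
# T4' (MP_12a1af), block N: the decoding for two consecutive nodes
-/

namespace Pool.Agent.Helper11.T4

open Finset Pool.Agent.Helper27.T4 Pool.Agent.Helper5.ET Pool.Agent.Helper3.T4

/-- the owner of the current era owns at least an eleventh of the digits, from era 3 on -/
theorem cnt_own_ge (y : ℕ) (hy : bb 3 ≤ y) : y ≤ 11 * cnt (own y) y := by
  have h0 : bb 0 ≤ y := (bb_strictMono.monotone (Nat.zero_le 3)).trans hy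
  obtain ⟨h1, h2⟩ := era_spec y h0
  have h3 : 3 ≤ era y := by
    have := era_mono hy
    rwa [era_bb] at this
  obtain ⟨k, hk⟩ : ∃ k, era y = k + 3 := ⟨era y - 3, by omega⟩
  rw [hk] at h1 h2
  have hown : own y = fam k := by
    rw [own_eq, hk, fam_add_three]
  have hsub : Finset.Ico (bb k) (bb (k + 1)) ⊆ (range y).filter (fun t => own t = own y) := by
    intro t ht
    rw [Finset.mem_Ico] at ht
    rw [Finset.mem_filter, Finset.mem_range]
    refine ⟨?_, ?_⟩
    · have h4 : bb (k + 1) ≤ bb (k + 3) := bb_strictMono.monotone (by omega)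
      omega
    · rw [hown]
      exact own_of_mem ht.1 ht.2
  have h4 := Finset.card_le_card hsub
  rw [Nat.card_Ico] at h4
  have h5 := bb_succ_le k
  have h6 := bb_succ_le (k + 1)
  have h7 := bb_succ_le (k + 2)
  have h8 := bb_succ_le (k + 3)
  have h9 := (bb_step k).1
  have h10 : cnt (own y) y = ((range y).filter (fun t => own t = own y)).card := rfl
  rw [← h10] at h4
  have e1 : k + 1 + 1 = k + 2 := rfl
  have e2 : k + 2 + 1 = k + 3 := rfl
  rw [e1] at h6
  rw [e2] at h7
  have h11 := bb_ge_pow k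
  omega

/-- D2 (helper11) -/
theorem Rp_step : ∃ (C1 c0 : ℕ), ∀ c ≥ c0, ∀ s s' : ℕ, s = 2 * c + 2 → s' = 2 * c + 1 →
    ∀ (w : Key → ℕ) (R : ℕ)
    (_hR : ∀ α E κ n1 : ℕ, E.Coprime (pr (own (sl s'))) → κ ≤ 1 →
      (((range (pr (own (sl s')) ^ ((cnt (own (sl s')) (sl s) - cnt (own (sl s')) (sl s')) / 2))) ×ˢ
          ((VV s w) ×ˢ (VV s' w))).filter (fun t => (α + E * t.1) % (Nj (se s) / Nj (sl s')) +
            κ * (Nj (se s) / Nj (sl s')) + Nj (sl s) / Nj (sl s') * t.2.1 + t.2.2 = n1)).card ≤ R)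
    (n : ℕ), Rp s s' w n ≤ C1 * R := by
  obtain ⟨c0, hc0⟩ := bb_node 3
  refine ⟨cP * (1000037 * 2) * cP, c0, ?_⟩
  intro c hc s s' hs hs' w R hR n
  have hsl : sl s = tau (c + 1) := by
    have : s = 2 * (c + 1) := by omega
    rw [this, sl_even]
  have hse : se s = tau (c + 2) := by
    have : s = 2 * (c + 1) := by omega
    rw [this, se_even]
  have hsl' : sl s' = tau c := by rw [hs', sl_odd]
  have hse' : se s' = tau (c + 2) := by rw [hs', se_odd]
  have hm1 : tau c ≤ tau (c + 1) := tau_strictMono.monotone (Nat.le_succ c)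
  have hm2 : tau (c + 1) ≤ tau (c + 2) := tau_strictMono.monotone (Nat.le_succ (c + 1))
  have hy : bb 3 ≤ tau c := by
    rw [← hc0]
    exact tau_strictMono.monotone hc
  set G := own (sl s') with hG
  have hG2 : G = own (tau c) := by rw [hG, hsl']
  have hrk : ∀ f g, (g ∈ pre (sl s) f ∨ g ∈ pre (sl s') f) →
      rk (ordK (sl s)) g < rk (ordK (sl s)) f := by
    intro f g h
    rcases h with h | h
    · exact Pool.Agent.Helper72.T4.mem_pre h
    · rw [hsl'] at h
      rw [hsl]
      exact Pool.Agent.Helper72.T4.pre_sub c f g h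
  have hstat : ∀ f, f ≠ G → cnt f (sl s) = cnt f (sl s') := by
    intro f hf
    rw [hsl, hsl']
    apply Pool.Agent.Helper72.T4.cnt_static f _ _ hm1
    intro t ht1 ht2
    rw [Pool.Agent.Helper72.T4.own_between c t ht1 ht2, ← hG2]
    exact fun h => hf h.symm
  have hcG := cnt_own_ge (tau c) hy
  rw [← hG2] at hcG
  have hgap : gap (tau (c + 1)) ≤ 2 * gap (tau c) := (gap_mono c).2
  have hgs := gap_small (tau c) (tau_ge c)
  have hgp := gap_pos (tau c)
  have ht1 := tau_succ c
  have ht2 : tau (c + 2) = tau (c + 1) + gap (tau (c + 1)) := rfl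
  have hcle : cnt G (tau (c + 2)) ≤ cnt G (tau c) + (tau (c + 2) - tau c) := by
    rw [cnt_sub G (y := tau c) (z := tau (c + 2)) (by omega)]
    refine Nat.add_le_add_left ?_ _
    refine (Finset.card_filter_le _ _).trans ?_
    rw [Nat.card_Ico]
  have hgrow : cnt G (se s') ≤ 2 * cnt G (sl s') + 1 := by
    rw [hse', hsl']
    omega
  have hlt : cnt G (sl s') < cnt G (se s') := by
    rw [hse', hsl']
    have h1 : cnt G (tau (c + 1)) = cnt G (tau c) + (tau (c + 1) - tau c) := by
      apply cnt_add_of G hm1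
      intro t h1 h2
      rw [hG2]
      exact own_node c t h1 h2
    have h2 : cnt G (tau (c + 1)) ≤ cnt G (tau (c + 2)) := cnt_mono G hm2
    omega
  have hmain : ∀ K : Finset (Fin 3), G ∉ K →
      (∀ f, (f = G ∨ f ∈ K) → pre (sl s) f ⊆ K ∧ pre (sl s') f ⊆ K) →
      (∀ f, f ≠ G → f ∉ K → cnt f (se s') = cnt f (sl s')) →
      Rp s s' w n ≤ cP * (1000037 * 2) * cP * R := by
    intro K hGK hK hrest
    have h1 := card_hits_step s s' G K (rk (ordK (sl s))) hGK hK hrk (by rw [hse', hse])
      (by rw [hsl, hsl']; exact hm1) (by rw [hsl, hse]; exact hm2) hstat hrest hgrow hlt w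
      (VV s w) (VV s' w) R hR n
    have h2 : pr G - 1 ≤ 1000037 := by
      have h3 : ∀ f : Fin 3, pr f - 1 ≤ 1000037 := by
        intro f
        fin_cases f <;> (simp only [pr]; norm_num)
      exact h3 G
    calc Rp s s' w n ≤ _ := Rp_le_hits s s' w n
      _ ≤ _ := h1
      _ ≤ (cP * (1000037 * 2)) * (cP * R) := by gcongr
      _ = _ := by ring
  rcases Pool.Agent.Helper72.T4.step_cases c with ⟨h1, h2, h3⟩ | ⟨F, h1, h2, h3, h4, h5, h6⟩
  · refine hmain ∅ (by simp) ?_ ?_
    · intro f hf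
      rcases hf with rfl | hf
      · rw [hsl, hsl', hG2, h1, h2]
        simp
      · simp at hf
    · intro f hf _
      rw [hse', hsl']
      exact h3 f (hG2 ▸ hf)
  · refine hmain {F} ?_ ?_ ?_
    · rw [Finset.mem_singleton, hG2]
      exact fun h => h1 h.symm
    · intro f hf
      rcases hf with rfl | hf
      · rw [hsl, hsl', hG2]
        exact ⟨h2, h3⟩
      · rw [Finset.mem_singleton] at hf
        subst hf
        rw [hsl, hsl', h4, h5]
        simp
    · intro f hf hF
      rw [hse', hsl']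
      rw [Finset.mem_singleton] at hF
      exact h6 f (hG2 ▸ hf) hF

end Pool.Agent.Helper11.T4
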