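import Pool.Agent.Helper11.T4.Grow

/-!
# Hits of two sets of codes with one growing family, arbitrary windows
-/

namespace Pool.Agent.Helper11.T4

open Finset Pool.Agent.Helper27.T4 Pool.Agent.Helper5.ET Pool.Agent.Helper3.T4

theorem mem_XX {s : ℕ} {x : Fin 3 → ℕ} (h : x ∈ XX s) (f : Fin 3) :
    (x f).Prime ∧ (x f).Coprime (pr f) ∧ (x f) ^ 2 < pr f ^ cnt f (sl s) := by
  have h1 := (Fintype.mem_piFinset.mp h) f
  rw [Finset.mem_filter] at h1
  exact h1.2

/-- the hits -/
noncomputable def hits (s s' : ℕ) (w : Key → ℕ) (V V' : Finset ℕ) (n : ℕ) :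
    Finset (((Fin 3 → ℕ) × ℕ) × ((Fin 3 → ℕ) × ℕ)) :=
  ((XX s ×ˢ V) ×ˢ (XX s' ×ˢ V')).filter
    (fun h => el s w h.1.1 h.1.2 + el s' w h.2.1 h.2.2 = n)

theorem Rp_le_hits (s s' : ℕ) (w : Key → ℕ) (n : ℕ) :
    Rp s s' w n ≤ (hits s s' w (VV s w) (VV s' w) n).card := by
  classical
  unfold Rp AA
  refine le_trans (Finset.card_le_card ?_) (Finset.card_image_le
    (s := hits s s' w (VV s w) (VV s' w) n)
    (f := fun h => (el s w h.1.1 h.1.2, el s' w h.2.1 h.2.2)))
  intro q hq
  rw [Finset.mem_filter, Finset.mem_product, Finset.mem_image, Finset.mem_image] at hq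
  obtain ⟨⟨⟨u, hu, hu2⟩, ⟨u', hu', hu2'⟩⟩, hs⟩ := hq
  rw [Finset.mem_image]
  refine ⟨(u, u'), ?_, ?_⟩
  · unfold hits
    rw [Finset.mem_filter, Finset.mem_product]
    exact ⟨⟨hu, hu'⟩, by rw [← hs, ← hu2, ← hu2']⟩
  · exact Prod.ext hu2 hu2'

/-- the congruence of a hit -/
theorem hit_mod {s s' : ℕ} (hl : sl s' ≤ sl s) {w : Key → ℕ} {V V' : Finset ℕ} {n : ℕ}
    {h : ((Fin 3 → ℕ) × ℕ) × ((Fin 3 → ℕ) × ℕ)} (hh : h ∈ hits s s' w V V' n) :
    (code s w h.1.1 + code s' w h.2.1) % Nj (sl s') = n % Nj (sl s') := by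
  unfold hits at hh
  rw [Finset.mem_filter] at hh
  obtain ⟨_, h2⟩ := hh
  rw [← h2]
  unfold el
  obtain ⟨q, hq⟩ := Nj_dvd hl
  have e : code s w h.1.1 + Nj (sl s) * h.1.2 + (code s' w h.2.1 + Nj (sl s') * h.2.2) =
      (code s w h.1.1 + code s' w h.2.1) + Nj (sl s') * (q * h.1.2 + h.2.2) := by
    rw [hq]; ring
  rw [e, Nat.add_mul_mod_self_left]

/-- the component of a hit at the level `sl s'` -/
theorem hit_comp {s s' : ℕ} (hl : sl s' ≤ sl s) (hls : sl s ≤ se s) (hls' : sl s' ≤ se s')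
    {w : Key → ℕ} {V V' : Finset ℕ} {n : ℕ}
    {h : ((Fin 3 → ℕ) × ℕ) × ((Fin 3 → ℕ) × ℕ)} (hh : h ∈ hits s s' w V V' n) (f : Fin 3) :
    (Lg (pr f) (av (sl s') f) (h.1.1 f) +
        ((hv s w f h.1.1 : ℕ) : ZMod (pr f ^ av (sl s') f))) +
      (Lg (pr f) (av (sl s') f) (h.2.1 f) +
        ((hv s' w f h.2.1 : ℕ) : ZMod (pr f ^ av (sl s') f))) = (n : ZMod (pr f ^ av (sl s') f)) := by
  have h1 := hit_mod hl hh
  unfold hits at hh
  rw [Finset.mem_filter, Finset.mem_product, Finset.mem_product, Finset.mem_product] at hh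
  rw [← code_comp s w h.1.1 f (hl.trans hls) (mem_XX hh.1.1.1 f).2.1,
    ← code_comp s' w h.2.1 f hls' (mem_XX hh.1.2.1 f).2.1, ← Nat.cast_add,
    ZMod.natCast_eq_natCast_iff]
  have h2 : (code s w h.1.1 + code s' w h.2.1) ≡ n [MOD Nj (sl s')] := h1
  exact h2.of_dvd (pow_dvd_NN pr (av (sl s')) f)

/-- the equation for the windows -/
theorem hit_win {s s' : ℕ} (hl : sl s' ≤ sl s) (hle : sl s' ≤ se s') (hee : se s' = se s)
    {w : Key → ℕ} {V V' : Finset ℕ} {n : ℕ}
    {h : ((Fin 3 → ℕ) × ℕ) × ((Fin 3 → ℕ) × ℕ)} (hh : h ∈ hits s s' w V V' n) (y : ℕ)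
    (hy : (code s w h.1.1 + code s' w h.2.1) % Nj (se s') = n % Nj (sl s') + Nj (sl s') * y) :
    y + (code s w h.1.1 + code s' w h.2.1) / Nj (se s') * (Nj (se s') / Nj (sl s')) +
      Nj (sl s) / Nj (sl s') * h.1.2 + h.2.2 = n / Nj (sl s') ∧
      (code s w h.1.1 + code s' w h.2.1) / Nj (se s') ≤ 1 := by
  unfold hits at hh
  rw [Finset.mem_filter] at hh
  obtain ⟨_, h2⟩ := hh
  have hpos := Nj_pos (sl s')
  constructor
  · set κ := (code s w h.1.1 + code s' w h.2.1) / Nj (se s') with hκ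
    have e1 : code s w h.1.1 + code s' w h.2.1 = n % Nj (sl s') + Nj (sl s') * y +
        Nj (se s') * κ := by
      rw [← hy, hκ]
      exact (Nat.mod_add_div _ _).symm
    have e2 : Nj (se s') = Nj (sl s') * (Nj (se s') / Nj (sl s')) := (Nj_mul_div hle).symm
    have e3 : Nj (sl s) = Nj (sl s') * (Nj (sl s) / Nj (sl s')) := (Nj_mul_div hl).symm
    have e4 : n = n % Nj (sl s') + Nj (sl s') * (y + κ * (Nj (se s') / Nj (sl s')) +
        Nj (sl s) / Nj (sl s') * h.1.2 + h.2.2) := by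
      conv_lhs => rw [← h2]
      unfold el
      have e5 : code s w h.1.1 + Nj (sl s) * h.1.2 + (code s' w h.2.1 + Nj (sl s') * h.2.2) =
        (code s w h.1.1 + code s' w h.2.1) + Nj (sl s) * h.1.2 + Nj (sl s') * h.2.2 := by ring
      rw [e5, e1]
      conv_lhs => rw [e2, e3]
      ring
    conv_rhs => rw [e4]
    rw [Nat.add_mul_div_left _ _ hpos, Nat.div_eq_of_lt (Nat.mod_lt _ hpos), zero_add]
  · have h3 := code_lt s w h.1.1
    have h4 := code_lt s' w h.2.1
    rw [← hee] at h3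
    have h5 : code s w h.1.1 + code s' w h.2.1 < Nj (se s') * 2 := by omega
    have := Nat.div_lt_of_lt_mul h5
    omega

/-- the known part of a hit -/
def zz (K : Finset (Fin 3)) (h : ((Fin 3 → ℕ) × ℕ) × ((Fin 3 → ℕ) × ℕ)) : Fin 3 → ℕ × ℕ :=
  fun f => if f ∈ K then (h.1.1 f, h.2.1 f) else (0, 0)

/-- the constant -/
def cP : ℕ := ∏ f, (2 * (pr f - 1))

theorem two_le_pr (f : Fin 3) : 2 ≤ pr f := (pr_prime f).two_le

/-- number of values of the known part -/
theorem card_zz (s s' : ℕ) (K : Finset (Fin 3)) (rk : Fin 3 → ℕ)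
    (hK : ∀ f ∈ K, pre (sl s) f ⊆ K ∧ pre (sl s') f ⊆ K)
    (hrk : ∀ f ∈ K, ∀ g, (g ∈ pre (sl s) f ∨ g ∈ pre (sl s') f) → rk g < rk f)
    (hl : sl s' ≤ sl s) (hls : sl s ≤ se s) (hls' : sl s' ≤ se s')
    (hstat : ∀ f ∈ K, cnt f (sl s) = cnt f (sl s'))
    (w : Key → ℕ) (V V' : Finset ℕ) (n : ℕ) :
    ((hits s s' w V V' n).image (zz K)).card ≤ cP := by
  classical
  refine card_le_prod_of_rank rk (fun f => 2 * (pr f - 1)) _ ?_
  intro f g _
  by_cases hf : f ∈ K
  · have h1 := card_pairs_le (pr_prime f) (pr_ne_two f) (av (sl s') f) (av (sl s') f) le_rfl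
      ((n : ZMod (pr f ^ av (sl s') f)) -
        ((hv s w f (fun j => (g j).1) : ℕ) : ZMod (pr f ^ av (sl s') f)) -
        ((hv s' w f (fun j => (g j).2) : ℕ) : ZMod (pr f ^ av (sl s') f)))
      ((((hits s s' w V V' n).image (zz K)).filter
        (fun g' => ∀ i, rk i < rk f → g' i = g i)).image (fun g' => g' f)) ?_
    · rw [Nat.sub_self, Nat.zero_div, pow_zero, mul_one] at h1
      convert h1
    · intro q hq
      rw [Finset.mem_image] at hq
      obtain ⟨g', hg', rfl⟩ := hq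
      rw [Finset.mem_filter, Finset.mem_image] at hg'
      obtain ⟨⟨h, hh, rfl⟩, hlow⟩ := hg'
      have hc := hit_comp hl hls hls' hh f
      have e1 : hv s w f h.1.1 = hv s w f (fun j => (g j).1) := by
        refine hv_congr s w f _ _ (fun j hj => ?_)
        have hjK := (hK f hf).1 hj
        have := hlow j (hrk f hf j (Or.inl hj))
        rw [← this]
        simp only [zz, if_pos hjK]
      have e2 : hv s' w f h.2.1 = hv s' w f (fun j => (g j).2) := by
        refine hv_congr s' w f _ _ (fun j hj => ?_)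
        have hjK := (hK f hf).2 hj
        have := hlow j (hrk f hf j (Or.inr hj))
        rw [← this]
        simp only [zz, if_pos hjK]
      unfold hits at hh
      rw [Finset.mem_filter, Finset.mem_product, Finset.mem_product, Finset.mem_product] at hh
      have hx := mem_XX hh.1.1.1 f
      have hx' := mem_XX hh.1.2.1 f
      have ez : zz K h f = (h.1.1 f, h.2.1 f) := by simp only [zz, if_pos hf]
      rw [ez]
      refine ⟨hx.1, hx'.1, hx.2.1, hx'.2.1, ?_, hx'.2.2, ?_⟩
      · have := hx.2.2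
        rw [hstat f hf] at this
        exact this
      · rw [← hc, ← e1, ← e2]
        ring
  · have h3 : ∀ S : Finset (ℕ × ℕ), S ⊆ {(0, 0)} → S.card ≤ 2 * (pr f - 1) := by
      intro S hS
      have h4 := Finset.card_le_card hS
      rw [Finset.card_singleton] at h4
      have := two_le_pr f
      omega
    apply h3
    intro q hq
    simp only [Finset.mem_image, Finset.mem_filter] at hq
    obtain ⟨g', ⟨⟨h, hh, rfl⟩, _⟩, rfl⟩ := hq
    simp only [zz, if_neg hf, Finset.mem_singleton]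

/-- residue of the growing product -/
def rr (s' : ℕ) (G : Fin 3) (h : ((Fin 3 → ℕ) × ℕ) × ((Fin 3 → ℕ) × ℕ)) : ℕ :=
  (h.1.1 G * h.2.1 G) % pr G ^ (cnt G (sl s') + 1)

theorem rr_coprime {s s' : ℕ} (G : Fin 3) {w : Key → ℕ} {V V' : Finset ℕ} {n : ℕ}
    {h : ((Fin 3 → ℕ) × ℕ) × ((Fin 3 → ℕ) × ℕ)} (hh : h ∈ hits s s' w V V' n) :
    (rr s' G h).Coprime (pr G) := by
  unfold hits at hh
  rw [Finset.mem_filter, Finset.mem_product, Finset.mem_product, Finset.mem_product] at hh
  exact mod_coprime _ _ (Nat.Coprime.mul_left (mem_XX hh.1.1.1 G).2.1 (mem_XX hh.1.2.1 G).2.1)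

/-- number of residues, the known part being given -/
theorem card_rr (s s' : ℕ) (G : Fin 3) (K : Finset (Fin 3))
    (hK : pre (sl s) G ⊆ K ∧ pre (sl s') G ⊆ K)
    (hl : sl s' ≤ sl s) (hls : sl s ≤ se s) (hls' : sl s' ≤ se s')
    (w : Key → ℕ) (V V' : Finset ℕ) (n : ℕ) (z : Fin 3 → ℕ × ℕ) :
    (((hits s s' w V V' n).filter (fun h => zz K h = z)).image (rr s' G)).card ≤ pr G - 1 := by
  classical
  refine le_trans (Finset.card_le_card ?_) (card_Lg_le (pr_prime G) (pr_ne_two G)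
    (av (sl s') G) ((n : ZMod (pr G ^ av (sl s') G)) -
      ((hv s w G (fun j => (z j).1) : ℕ) : ZMod (pr G ^ av (sl s') G)) -
      ((hv s' w G (fun j => (z j).2) : ℕ) : ZMod (pr G ^ av (sl s') G))))
  intro r hr
  rw [Finset.mem_image] at hr
  obtain ⟨h, hh, rfl⟩ := hr
  rw [Finset.mem_filter] at hh
  obtain ⟨hh, hz⟩ := hh
  have hc := hit_comp hl hls hls' hh G
  have hcop := rr_coprime G hh
  have e1 : hv s w G h.1.1 = hv s w G (fun j => (z j).1) := by
    refine hv_congr s w G _ _ (fun j hj => ?_)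
    have hjK := hK.1 hj
    rw [← hz]
    simp only [zz, if_pos hjK]
  have e2 : hv s' w G h.2.1 = hv s' w G (fun j => (z j).2) := by
    refine hv_congr s' w G _ _ (fun j hj => ?_)
    have hjK := hK.2 hj
    rw [← hz]
    simp only [zz, if_pos hjK]
  unfold hits at hh
  rw [Finset.mem_filter, Finset.mem_product, Finset.mem_product, Finset.mem_product] at hh
  have hx := mem_XX hh.1.1.1 G
  have hx' := mem_XX hh.1.2.1 G
  rw [Finset.mem_filter, Finset.mem_range]
  refine ⟨Nat.mod_lt _ (pow_pos (pr_prime G).pos _), hcop, ?_⟩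
  have e3 : Lg (pr G) (av (sl s') G) (rr s' G h) =
      Lg (pr G) (av (sl s') G) (h.1.1 G) + Lg (pr G) (av (sl s') G) (h.2.1 G) := by
    rw [← Lg_mul (pr_prime G) (pr_ne_two G) _ _ _ hx.2.1 hx'.2.1]
    exact Lg_mod _ _
  rw [e3, ← e1, ← e2, ← hc]
  ring

/-- quotient of the growing product -/
def ii (s' : ℕ) (G : Fin 3) (h : ((Fin 3 → ℕ) × ℕ) × ((Fin 3 → ℕ) × ℕ)) : ℕ :=
  (h.1.1 G * h.2.1 G) / pr G ^ (cnt G (sl s') + 1)

/-- number of hits with given windows and given quotient -/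
theorem card_fib (s s' : ℕ) (G : Fin 3) (rk : Fin 3 → ℕ)
    (hrk : ∀ f g, (g ∈ pre (sl s) f ∨ g ∈ pre (sl s') f) → rk g < rk f)
    (hl : sl s' ≤ sl s) (hls : sl s ≤ se s) (hls' : sl s' ≤ se s')
    (hstat : ∀ f, f ≠ G → cnt f (sl s) = cnt f (sl s'))
    (w : Key → ℕ) (V V' : Finset ℕ) (n : ℕ) (i v v' : ℕ) :
    ((hits s s' w V V' n).filter (fun h => (ii s' G h, h.1.2, h.2.2) = (i, v, v'))).card ≤ cP := by
  classical
  have h1 := card_code_pairs_quot pr_prime pr_ne_two (av (sl s')) rk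
    (fun f x => ((hv s w f x : ℕ) : ZMod (pr f ^ av (sl s') f)))
    (fun f x => ((hv s' w f x : ℕ) : ZMod (pr f ^ av (sl s') f)))
    (fun f x y h => by rw [hv_congr s w f x y (fun g hg => h g (hrk f g (Or.inl hg)))])
    (fun f x y h => by rw [hv_congr s' w f x y (fun g hg => h g (hrk f g (Or.inr hg)))])
    (fun f => (n : ZMod (pr f ^ av (sl s') f))) (fun f => if f = G then i else 0)
    (((hits s s' w V V' n).filter (fun h => (ii s' G h, h.1.2, h.2.2) = (i, v, v'))).image
      (fun h => fun f => (h.1.1 f, h.2.1 f))) ?_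
  · rw [Finset.card_image_of_injOn] at h1
    · exact h1
    · intro h hh h' hh' he
      simp only [Finset.coe_filter, Set.mem_ofPred_eq, Prod.mk.injEq] at hh hh'
      have e1 : h.1.1 = h'.1.1 := by
        funext f
        have := congrFun he f
        simp only [Prod.mk.injEq] at this
        exact this.1
      have e2 : h.2.1 = h'.2.1 := by
        funext f
        have := congrFun he f
        simp only [Prod.mk.injEq] at this
        exact this.2
      refine Prod.ext (Prod.ext e1 ?_) (Prod.ext e2 ?_)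
      · rw [hh.2.2.1, hh'.2.2.1]
      · rw [hh.2.2.2, hh'.2.2.2]
  · intro g hg f
    rw [Finset.mem_image] at hg
    obtain ⟨h, hh, rfl⟩ := hg
    rw [Finset.mem_filter] at hh
    obtain ⟨hh, hi⟩ := hh
    have hc := hit_comp hl hls hls' hh f
    unfold hits at hh
    rw [Finset.mem_filter, Finset.mem_product, Finset.mem_product, Finset.mem_product] at hh
    have hx := mem_XX hh.1.1.1 f
    have hx' := mem_XX hh.1.2.1 f
    simp only [Prod.mk.injEq] at hi
    refine ⟨hx.1, hx'.1, hx.2.1, hx'.2.1, ?_, hc⟩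
    by_cases hf : f = G
    · subst hf
      rw [if_pos rfl]
      exact hi.1
    · rw [if_neg hf]
      apply Nat.div_eq_of_lt
      have h3 := hx.2.2
      have h4 := hx'.2.2
      rw [hstat f hf] at h3
      have h5 : (h.1.1 f * h.2.1 f) ^ 2 < (pr f ^ (av (sl s') f)) ^ 2 := by
        rw [mul_pow, sq (pr f ^ (av (sl s') f))]
        exact Nat.mul_lt_mul'' h3 h4
      have h6 := lt_of_pow_lt_pow_left₀ 2 (Nat.zero_le _) h5
      exact h6.trans_le (Nat.pow_le_pow_right (pr_prime f).pos (Nat.le_succ _))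

/-- the bound for the number of hits, arbitrary windows -/
theorem card_hits_step (s s' : ℕ) (G : Fin 3) (K : Finset (Fin 3)) (rk : Fin 3 → ℕ) (hG : G ∉ K)
    (hK : ∀ f, (f = G ∨ f ∈ K) → pre (sl s) f ⊆ K ∧ pre (sl s') f ⊆ K)
    (hrk : ∀ f g, (g ∈ pre (sl s) f ∨ g ∈ pre (sl s') f) → rk g < rk f)
    (hee : se s' = se s) (hl : sl s' ≤ sl s) (hls : sl s ≤ se s)
    (hstat : ∀ f, f ≠ G → cnt f (sl s) = cnt f (sl s'))
    (hrest : ∀ f, f ≠ G → f ∉ K → cnt f (se s') = cnt f (sl s'))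
    (hgrow : cnt G (se s') ≤ 2 * cnt G (sl s') + 1)
    (hlt : cnt G (sl s') < cnt G (se s'))
    (w : Key → ℕ) (V V' : Finset ℕ) (R : ℕ)
    (hR : ∀ α E κ n1 : ℕ, E.Coprime (pr G) → κ ≤ 1 →
      (((range (pr G ^ ((cnt G (sl s) - cnt G (sl s')) / 2))) ×ˢ
          (V ×ˢ V')).filter (fun t => (α + E * t.1) % (Nj (se s) / Nj (sl s')) +
            κ * (Nj (se s) / Nj (sl s')) + Nj (sl s) / Nj (sl s') * t.2.1 + t.2.2 = n1)).card ≤ R)
    (n : ℕ) : (hits s s' w V V' n).card ≤ (cP * ((pr G - 1) * 2)) * (cP * R) := by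
  classical
  have hls' : sl s' ≤ se s' := by rw [hee]; exact hl.trans hls
  set H := hits s s' w V V' n with hH
  set κf : ((Fin 3 → ℕ) × ℕ) × ((Fin 3 → ℕ) × ℕ) → ℕ :=
    fun h => (code s w h.1.1 + code s' w h.2.1) / Nj (se s') with hκf
  have hκ : ∀ h ∈ H, κf h ≤ 1 := by
    intro h _
    have h3 := code_lt s w h.1.1
    have h4 := code_lt s' w h.2.1
    rw [← hee] at h3
    have h5 : code s w h.1.1 + code s' w h.2.1 < Nj (se s') * 2 := by omega
    have := Nat.div_lt_of_lt_mul h5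
    simp only [hκf]
    omega
  -- the contexts
  set D := H.image (fun h => (zz K h, rr s' G h, κf h)) with hD
  have hDc : D.card ≤ cP * ((pr G - 1) * 2) := by
    have h1 : D.card ≤ ((pr G - 1) * 2) * (H.image (zz K)).card := by
      refine Finset.card_le_mul_card_image_of_maps_to (f := fun d => d.1) ?_ _ ?_
      · intro d hd
        rw [hD, Finset.mem_image] at hd
        obtain ⟨h, hh, rfl⟩ := hd
        exact Finset.mem_image_of_mem _ hh
      · intro z _
        have h2 := card_rr s s' G K (hK G (Or.inl rfl)) hl hls hls' w V V' n z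
        refine le_trans (Finset.card_le_card_of_injOn (fun d => (d.2.1, d.2.2))
          (t := (((hits s s' w V V' n).filter (fun h => zz K h = z)).image (rr s' G)) ×ˢ
            (range 2)) ?_ ?_) ?_
        · intro d hd
          simp only [Finset.coe_filter, Set.mem_ofPred_eq] at hd
          obtain ⟨hd, hdz⟩ := hd
          rw [hD, Finset.mem_image] at hd
          obtain ⟨h, hh, rfl⟩ := hd
          simp only [Finset.coe_product, Set.mem_prod, Finset.mem_coe, Finset.mem_range]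
          refine ⟨Finset.mem_image_of_mem _ ?_, ?_⟩
          · rw [Finset.mem_filter]
            exact ⟨hh, hdz⟩
          · have := hκ h hh
            omega
        · intro d hd d' hd' he
          simp only [Finset.coe_filter, Set.mem_ofPred_eq] at hd hd'
          simp only [Prod.mk.injEq] at he
          refine Prod.ext (hd.2.trans hd'.2.symm) (Prod.ext he.1 he.2)
        · rw [Finset.card_product, Finset.card_range]
          exact Nat.mul_le_mul_right _ h2
    have h3 := card_zz s s' K rk (fun f hf => hK f (Or.inr hf)) (fun f _ => hrk f) hl hls hls'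
      (fun f hf => hstat f (fun h => hG (h ▸ hf))) w V V' n
    calc D.card ≤ ((pr G - 1) * 2) * (H.image (zz K)).card := h1
      _ ≤ ((pr G - 1) * 2) * cP := Nat.mul_le_mul_left _ h3
      _ = _ := mul_comm _ _
  have hfib : H.card ≤ (cP * R) * D.card := by
    refine Finset.card_le_mul_card_image_of_maps_to
      (f := fun h => (zz K h, rr s' G h, κf h)) (t := D) ?_ _ ?_
    · intro h hh
      exact Finset.mem_image_of_mem _ hh
    · intro d hd
      rw [hD, Finset.mem_image] at hd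
      obtain ⟨h0, hh0, hd0⟩ := hd
      have hcop0 := rr_coprime G hh0
      obtain ⟨α, E, _, _, hE, hform⟩ := growth_form s s' G K hG hK (le_of_eq hee) hls' hrest hgrow
        hlt w n (zz K h0) (rr s' G h0) hcop0
      have hR1 := hR α E (κf h0) (n / Nj (sl s')) hE (hκ h0 hh0)
      set T := ((range (pr G ^ ((cnt G (sl s) - cnt G (sl s')) / 2))) ×ˢ
          (V ×ˢ V')).filter (fun t => (α + E * t.1) % (Nj (se s) / Nj (sl s')) +
            κf h0 * (Nj (se s) / Nj (sl s')) + Nj (sl s) / Nj (sl s') * t.2.1 + t.2.2 =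
              n / Nj (sl s')) with hT
      refine le_trans (Finset.card_le_mul_card_image_of_maps_to
        (f := fun h => (ii s' G h, h.1.2, h.2.2)) (t := T) ?_ cP ?_) (Nat.mul_le_mul_left _ hR1)
      · intro h hh
        rw [Finset.mem_filter] at hh
        obtain ⟨hh, hdh⟩ := hh
        rw [← hd0] at hdh
        simp only [Prod.mk.injEq] at hdh
        obtain ⟨hz, hr, hk⟩ := hdh
        have hmod := hit_mod hl hh
        have hh2 := hh
        rw [hH] at hh2
        unfold hits at hh2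
        rw [Finset.mem_filter, Finset.mem_product, Finset.mem_product,
          Finset.mem_product] at hh2
        have hxz : ∀ f ∈ K, h.1.1 f = (zz K h0 f).1 ∧ h.2.1 f = (zz K h0 f).2 := by
          intro f hf
          rw [← hz]
          simp only [zz, if_pos hf, and_self]
        have hf1 := hform h.1.1 h.2.1 hxz
          (fun f => ⟨(mem_XX hh2.1.1.1 f).2.1, (mem_XX hh2.1.2.1 f).2.1⟩) hr hmod
        have hw := (hit_win hl hls' hee hh _ hf1).1
        rw [hT, Finset.mem_filter, Finset.mem_product, Finset.mem_product, Finset.mem_range]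
        refine ⟨⟨?_, hh2.1.1.2, hh2.1.2.2⟩, ?_⟩
        · exact (prod_param (pr_prime G) (cnt G (sl s)) (cnt G (sl s')) (h.1.1 G) (h.2.1 G)
            (cnt_mono G hl) (mem_XX hh2.1.1.1 G).2.2 (mem_XX hh2.1.2.1 G).2.2).2
        · rw [← hk, ← hee]
          exact hw
      · intro t _
        obtain ⟨i, v, v'⟩ := t
        refine le_trans (Finset.card_le_card ?_)
          (card_fib s s' G rk hrk hl hls hls' hstat w V V' n i v v')
        intro h hh
        rw [Finset.mem_filter, Finset.mem_filter] at hh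
        rw [Finset.mem_filter]
        exact ⟨hh.1.1, hh.2⟩
  calc H.card ≤ (cP * R) * D.card := hfib
    _ ≤ (cP * R) * (cP * ((pr G - 1) * 2)) := Nat.mul_le_mul_left _ hDc
    _ = _ := mul_comm _ _

end Pool.Agent.Helper11.T4
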